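import Mathlib

/-!
An abstract chain construction in compact right topological semigroups on which the rigid maps
act: from a coherent system one gets a decreasing chain of coherent idempotents.
-/

namespace Pool.Agent.FINk

/-- The running maximum of `f`. -/
def fmax (f : ℕ → ℕ) : ℕ → ℕ
  | 0 => f 0
  | i + 1 => max (fmax f i) (f (i + 1))

/-- Rigid maps: every value occurs only after all smaller ones. -/
def Rigid (f : ℕ → ℕ) : Prop := f 0 = 0 ∧ ∀ i, f (i + 1) ≤ fmax f i + 1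

lemma Rigid.fmax_zero {f : ℕ → ℕ} (hf : Rigid f) : fmax f 0 = 0 := hf.1

lemma Rigid.fmax_succ {f : ℕ → ℕ} (hf : Rigid f) (i : ℕ) :
    fmax f (i + 1) = fmax f i ∨ fmax f (i + 1) = fmax f i + 1 := by
  have := hf.2 i
  simp only [fmax]
  omega

lemma Rigid.fmax_le {f : ℕ → ℕ} (hf : Rigid f) (i : ℕ) : fmax f i ≤ i := by
  induction i with
  | zero => rw [hf.fmax_zero]
  | succ i ih => rcases hf.fmax_succ i with h | h <;> omega

lemma le_fmax (f : ℕ → ℕ) (i j : ℕ) (h : i ≤ j) : f i ≤ fmax f j := by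
  induction j with
  | zero =>
    have : i = 0 := by omega
    subst this
    exact le_rfl
  | succ j ih =>
    simp only [fmax]
    rcases Nat.eq_or_lt_of_le h with h1 | h1
    · rw [h1]; exact le_max_right _ _
    · exact le_trans (ih (by omega)) (le_max_left _ _)

section chain

variable {Y : Type*} [Semigroup Y]

/-- Products `x 0 * x 1 * ⋯ * x l`. -/
def Lp (x : ℕ → Y) : ℕ → Y
  | 0 => x 0
  | l + 1 => Lp x l * x (l + 1)

/-- Products `x l * ⋯ * x 1 * x 0`. -/
def Rp (x : ℕ → Y) : ℕ → Y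
  | 0 => x 0
  | l + 1 => x (l + 1) * Rp x l

/-- The palindromic products. -/
def Ph (x : ℕ → Y) (l : ℕ) : Y := Lp x l * Rp x l

/-- Coherent systems (up to level `K`), with `x l` in `Z l`. -/
def Coh (ρ : (ℕ → ℕ) → Y → Y) (Z : ℕ → Set Y) (K : ℕ) (x : ℕ → Y) : Prop :=
  (∀ l ≤ K, x l ∈ Z l) ∧ ∀ l ≤ K, ∀ f, Rigid f → ρ f (x l) = x (fmax f l)

/-- The hypothesis of the induction. -/
def Hyp (ρ : (ℕ → ℕ) → Y → Y) (Z : ℕ → Set Y) (K k : ℕ) (x : ℕ → Y) : Prop :=
  Coh ρ Z K x ∧ (∀ l, x l * x l = x l) ∧ (∀ i ≤ k, ∀ j ≤ k, x i * x j = x (max i j)) ∧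
    ∀ l, k ≤ l → x l * x k = x l

lemma Lp_mul (x : ℕ → Y) (hx : ∀ l, x l * x l = x l) (l : ℕ) : Lp x l * x l = Lp x l := by
  cases l with
  | zero => exact hx 0
  | succ l => simp only [Lp]; rw [mul_assoc, hx]

lemma mul_Rp (x : ℕ → Y) (hx : ∀ l, x l * x l = x l) (l : ℕ) : x l * Rp x l = Rp x l := by
  cases l with
  | zero => exact hx 0
  | succ l => simp only [Rp]; rw [← mul_assoc, hx]

lemma coh_Ph {ρ : (ℕ → ℕ) → Y → Y} {Z : ℕ → Set Y} {K : ℕ}
    (hρm : ∀ f a b, ρ f (a * b) = ρ f a * ρ f b)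
    (hZl : ∀ i l, i ≤ l → ∀ a ∈ Z i, ∀ b ∈ Z l, a * b ∈ Z l)
    (hZr : ∀ i l, i ≤ l → ∀ a ∈ Z l, ∀ b ∈ Z i, a * b ∈ Z l)
    {x : ℕ → Y} (hc : Coh ρ Z K x) (hx : ∀ l, x l * x l = x l) : Coh ρ Z K (Ph x) := by
  have hL : ∀ l ≤ K, Lp x l ∈ Z l := by
    intro l
    induction l with
    | zero => intro h; exact hc.1 0 h
    | succ l ih =>
      intro h
      exact hZl l (l + 1) (by omega) _ (ih (by omega)) _ (hc.1 (l + 1) h)
  have hR : ∀ l ≤ K, Rp x l ∈ Z l := by
    intro l
    induction l with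
    | zero => intro h; exact hc.1 0 h
    | succ l ih =>
      intro h
      exact hZr l (l + 1) (by omega) _ (hc.1 (l + 1) h) _ (ih (by omega))
  have hLf : ∀ l ≤ K, ∀ f, Rigid f → ρ f (Lp x l) = Lp x (fmax f l) := by
    intro l
    induction l with
    | zero =>
      intro h f hf
      have := hc.2 0 h f hf
      rw [hf.fmax_zero] at this ⊢
      exact this
    | succ l ih =>
      intro h f hf
      simp only [Lp]
      rw [hρm, ih (by omega) f hf, hc.2 (l + 1) h f hf]
      rcases hf.fmax_succ l with h1 | h1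
      · rw [h1]; exact Lp_mul x hx _
      · rw [h1]; rfl
  have hRf : ∀ l ≤ K, ∀ f, Rigid f → ρ f (Rp x l) = Rp x (fmax f l) := by
    intro l
    induction l with
    | zero =>
      intro h f hf
      have := hc.2 0 h f hf
      rw [hf.fmax_zero] at this ⊢
      exact this
    | succ l ih =>
      intro h f hf
      simp only [Rp]
      rw [hρm, ih (by omega) f hf, hc.2 (l + 1) h f hf]
      rcases hf.fmax_succ l with h1 | h1
      · rw [h1]; exact mul_Rp x hx _
      · rw [h1]; rfl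
  refine ⟨fun l hl => hZl l l le_rfl _ (hL l hl) _ (hR l hl), fun l hl f hf => ?_⟩
  simp only [Ph]
  rw [hρm, hLf l hl f hf, hRf l hl f hf]

lemma Lp_chain {x : ℕ → Y} {k : ℕ} (h : ∀ i ≤ k, ∀ j ≤ k, x i * x j = x (max i j)) :
    ∀ i ≤ k, Lp x i = x i := by
  intro i
  induction i with
  | zero => intro _; rfl
  | succ i ih =>
    intro hi
    simp only [Lp]
    rw [ih (by omega), h i (by omega) (i + 1) hi]
    congr 1
    omega

lemma Rp_chain {x : ℕ → Y} {k : ℕ} (h : ∀ i ≤ k, ∀ j ≤ k, x i * x j = x (max i j)) :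
    ∀ i ≤ k, Rp x i = x i := by
  intro i
  induction i with
  | zero => intro _; rfl
  | succ i ih =>
    intro hi
    simp only [Rp]
    rw [ih (by omega), h (i + 1) hi i (by omega)]
    congr 1
    omega

/-- The palindromic product of a system satisfying the hypothesis at `k`. -/
lemma Ph_step {x : ℕ → Y} {k : ℕ} (hx : ∀ l, x l * x l = x l)
    (h : ∀ i ≤ k, ∀ j ≤ k, x i * x j = x (max i j)) (hr : ∀ l, k ≤ l → x l * x k = x l) :
    (∀ i ≤ k + 1, ∀ j ≤ k + 1, Ph x i * Ph x j = Ph x (max i j)) ∧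
      ∀ l, k + 1 ≤ l → Ph x l * Ph x (k + 1) = Ph x l := by
  have hlow : ∀ i ≤ k, Ph x i = x i := fun i hi => by
    simp only [Ph]
    rw [Lp_chain h i hi, Rp_chain h i hi, hx]
  have hRk : Rp x (k + 1) = x (k + 1) := by
    simp only [Rp]
    rw [Rp_chain h k le_rfl, hr (k + 1) (by omega)]
  have hLk : Lp x (k + 1) = x k * x (k + 1) := by
    simp only [Lp]
    rw [Lp_chain h k le_rfl]
  have htop : Ph x (k + 1) = x k * x (k + 1) := by
    simp only [Ph]
    rw [hLk, hRk, mul_assoc, hx]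
  have hR1 : ∀ l, k + 1 ≤ l → Rp x l * x (k + 1) = Rp x l := by
    intro l hl
    induction l, hl using Nat.le_induction with
    | base => rw [hRk, hx]
    | succ l hl ih => simp only [Rp]; rw [mul_assoc, ih]
  have hR2 : ∀ l, k + 1 ≤ l → Rp x l * x k = Rp x l := by
    intro l hl
    induction l, hl using Nat.le_induction with
    | base => rw [hRk, hr (k + 1) (by omega)]
    | succ l hl ih => simp only [Rp]; rw [mul_assoc, ih]
  have hsecond : ∀ l, k + 1 ≤ l → Ph x l * Ph x (k + 1) = Ph x l := by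
    intro l hl
    rw [htop]
    simp only [Ph]
    rw [mul_assoc, ← mul_assoc (Rp x l), hR2 l hl, hR1 l hl]
  refine ⟨?_, hsecond⟩
  intro i hi j hj
  rcases Nat.lt_or_ge k i with h1 | h1
  · have hik : i = k + 1 := by omega
    subst hik
    rcases Nat.lt_or_ge k j with h2 | h2
    · have hjk : j = k + 1 := by omega
      subst hjk
      rw [max_self]
      exact hsecond (k + 1) le_rfl
    · rw [hlow j h2, htop, max_eq_left (by omega), htop, mul_assoc]
      congr 1
      have e1 : x (k + 1) * x k = x (k + 1) := hr (k + 1) (by omega)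
      calc x (k + 1) * x j = x (k + 1) * x k * x j := by rw [e1]
        _ = x (k + 1) * (x k * x j) := mul_assoc _ _ _
        _ = x (k + 1) * x k := by rw [h k le_rfl j h2, max_eq_left h2]
        _ = x (k + 1) := e1
  · rcases Nat.lt_or_ge k j with h2 | h2
    · have hjk : j = k + 1 := by omega
      subst hjk
      rw [hlow i h1, htop, max_eq_right (by omega), htop, ← mul_assoc, h i h1 k le_rfl,
        max_eq_right h1]
    · rw [hlow i h1, hlow j h2, hlow (max i j) (by omega)]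
      exact h i h1 j h2

variable [TopologicalSpace Y] [T2Space Y] [CompactSpace Y]

/-- Idempotents in closed constraint sets. -/
lemma exists_idem (hcont : ∀ r : Y, Continuous (· * r)) {ρ : (ℕ → ℕ) → Y → Y}
    (hρc : ∀ f, Continuous (ρ f)) (hρm : ∀ f a b, ρ f (a * b) = ρ f a * ρ f b)
    {Z : ℕ → Set Y} (hZc : ∀ l, IsClosed (Z l))
    (hZl : ∀ i l, i ≤ l → ∀ a ∈ Z i, ∀ b ∈ Z l, a * b ∈ Z l) {K : ℕ}
    (m : ℕ) (z : ℕ → Y) (hz : ∀ i < m, z i * z i = z i) (e : Set ℕ) (w : Y)
    (hne : ∃ y : ℕ → Y, Coh ρ Z K y ∧ (∀ i < m, y i = z i) ∧ ∀ l ∈ e, y l * w = y l) :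
    ∃ y : ℕ → Y, Coh ρ Z K y ∧ (∀ l, y l * y l = y l) ∧ (∀ i < m, y i = z i) ∧
      ∀ l ∈ e, y l * w = y l := by
  let S : Set (ℕ → Y) := {y | Coh ρ Z K y ∧ (∀ i < m, y i = z i) ∧ ∀ l ∈ e, y l * w = y l}
  have hS : IsClosed S := by
    have h1 : IsClosed {y : ℕ → Y | ∀ l ≤ K, y l ∈ Z l} := by
      simp only [Set.ofPred_forall]
      exact isClosed_iInter fun l => isClosed_iInter fun _ =>
        (hZc l).preimage (continuous_apply l)
    have h2 : IsClosed {y : ℕ → Y | ∀ l ≤ K, ∀ f, Rigid f → ρ f (y l) = y (fmax f l)} := by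
      simp only [Set.ofPred_forall]
      exact isClosed_iInter fun l => isClosed_iInter fun _ => isClosed_iInter fun f =>
        isClosed_iInter fun _ =>
          isClosed_eq ((hρc f).comp (continuous_apply l)) (continuous_apply _)
    have h3 : IsClosed {y : ℕ → Y | ∀ i < m, y i = z i} := by
      simp only [Set.ofPred_forall]
      exact isClosed_iInter fun i => isClosed_iInter fun _ =>
        isClosed_eq (continuous_apply i) continuous_const
    have h4 : IsClosed {y : ℕ → Y | ∀ l ∈ e, y l * w = y l} := by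
      simp only [Set.ofPred_forall]
      exact isClosed_iInter fun l => isClosed_iInter fun _ =>
        isClosed_eq ((hcont w).comp (continuous_apply l)) (continuous_apply l)
    have : S = ({y : ℕ → Y | ∀ l ≤ K, y l ∈ Z l} ∩
        {y : ℕ → Y | ∀ l ≤ K, ∀ f, Rigid f → ρ f (y l) = y (fmax f l)}) ∩
        ({y : ℕ → Y | ∀ i < m, y i = z i} ∩ {y : ℕ → Y | ∀ l ∈ e, y l * w = y l}) := by
      ext y
      simp only [S, Coh, Set.mem_ofPred_eq, Set.mem_inter_iff]
    rw [this]
    exact (h1.inter h2).inter (h3.inter h4)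
  have hmul : ∀ r : ℕ → Y, Continuous (· * r) := by
    intro r
    refine continuous_pi fun l => ?_
    exact (hcont (r l)).comp (continuous_apply l)
  obtain ⟨y, hy, hyy⟩ := exists_idempotent_in_compact_subsemigroup hmul S hne hS.isCompact (by
    intro a ha b hb
    refine ⟨⟨fun l hl => hZl l l le_rfl _ (ha.1.1 l hl) _ (hb.1.1 l hl), ?_⟩, ?_, ?_⟩
    · intro l hl f hf
      simp only [Pi.mul_apply]
      rw [hρm, ha.1.2 l hl f hf, hb.1.2 l hl f hf]
    · intro i hi
      simp only [Pi.mul_apply]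
      rw [ha.2.1 i hi, hb.2.1 i hi, hz i hi]
    · intro l hl
      simp only [Pi.mul_apply]
      rw [mul_assoc, hb.2.2 l hl])
  exact ⟨y, hy.1, fun l => congrFun hyy l, hy.2.1, hy.2.2⟩

/-- From a coherent system to a chain of coherent idempotents. -/
theorem exists_chain (hcont : ∀ r : Y, Continuous (· * r)) {ρ : (ℕ → ℕ) → Y → Y}
    (hρc : ∀ f, Continuous (ρ f)) (hρm : ∀ f a b, ρ f (a * b) = ρ f a * ρ f b)
    {Z : ℕ → Set Y} (hZc : ∀ l, IsClosed (Z l))
    (hZl : ∀ i l, i ≤ l → ∀ a ∈ Z i, ∀ b ∈ Z l, a * b ∈ Z l)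
    (hZr : ∀ i l, i ≤ l → ∀ a ∈ Z l, ∀ b ∈ Z i, a * b ∈ Z l) {K : ℕ}
    (hne : ∃ y : ℕ → Y, Coh ρ Z K y) :
    ∃ x : ℕ → Y, Coh ρ Z K x ∧ ∀ i ≤ K, ∀ j ≤ K, x i * x j = x (max i j) := by
  have main : ∀ k, ∃ x : ℕ → Y, Hyp ρ Z K k x := by
    intro k
    induction k with
    | zero =>
      obtain ⟨y0, hy0⟩ := hne
      obtain ⟨y, hy1, hy2, _⟩ := exists_idem hcont hρc hρm hZc hZl (K := K) 0 y0
        (fun i hi => absurd hi (Nat.not_lt_zero i)) ∅ (y0 0)
        ⟨y0, hy0, fun i hi => absurd hi (Nat.not_lt_zero i), fun l hl => absurd hl (by simp)⟩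
      have hP0 : Ph y 0 = y 0 := hy2 0
      have hPl : ∀ l, Ph y l * y 0 = Ph y l := by
        intro l
        have : Rp y l * y 0 = Rp y l := by
          induction l with
          | zero => exact hy2 0
          | succ l ih => simp only [Rp]; rw [mul_assoc, ih]
        simp only [Ph]
        rw [mul_assoc, this]
      obtain ⟨x, hx1, hx2, hx3, hx4⟩ := exists_idem hcont hρc hρm hZc hZl (K := K) 1 y
        (fun i _ => hy2 i) Set.univ (y 0)
        ⟨Ph y, coh_Ph hρm hZl hZr hy1 hy2, fun i hi => by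
          have : i = 0 := by omega
          subst this
          exact hP0, fun l _ => hPl l⟩
      refine ⟨x, hx1, hx2, fun i hi j hj => ?_, fun l _ => ?_⟩
      · have h1 : i = 0 := by omega
        have h2 : j = 0 := by omega
        subst h1 h2
        exact hx2 0
      · rw [hx3 0 (by omega)]
        exact hx4 l (Set.mem_univ l)
    | succ k ih =>
      obtain ⟨x, hx1, hx2, hx3, hx4⟩ := ih
      obtain ⟨h1, h2⟩ := Ph_step hx2 hx3 hx4
      have hidem : ∀ i < k + 2, Ph x i * Ph x i = Ph x i := by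
        intro i hi
        have := h1 i (by omega) i (by omega)
        rwa [max_self] at this
      obtain ⟨y, hy1, hy2, hy3, hy4⟩ := exists_idem hcont hρc hρm hZc hZl (K := K) (k + 2)
        (Ph x) hidem {l | k + 1 ≤ l} (Ph x (k + 1))
        ⟨Ph x, coh_Ph hρm hZl hZr hx1 hx2, fun i _ => rfl, fun l hl => h2 l hl⟩
      refine ⟨y, hy1, hy2, fun i hi j hj => ?_, fun l hl => ?_⟩
      · rw [hy3 i (by omega), hy3 j (by omega), hy3 (max i j) (by omega)]
        exact h1 i hi j hj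
      · rw [hy3 (k + 1) (by omega)]
        exact hy4 l hl
  obtain ⟨x, hx⟩ := main K
  exact ⟨x, hx.1, hx.2.2.1⟩

end chain

end Pool.Agent.FINk
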