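import Mathlib

/-!
Definitions: the partial semigroup `FIN` of finite partial functions from `ℕ` to an alphabet,
basic sequences, `M`-spans, and the Ramsey property (R).
-/

namespace Pool.Agent.FINk

/-- `FIN α`: the partial functions from `ℕ` to `α` with finite domain. -/
structure FIN (α : Type*) where
  /-- the partial function, `none` where it is undefined -/
  toFun : ℕ → Option α
  /-- the domain is finite -/
  fin : {n | toFun n ≠ none}.Finite

namespace FIN

variable {α : Type*}

/-- The domain of `s`. -/
def dom (s : FIN α) : Set ℕ := {n | s.toFun n ≠ none}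

/-- The range of `s`. -/
def ran (s : FIN α) : Set α := {a | ∃ n, s.toFun n = some a}

/-- `s` lies below `t`: every element of the domain of `s` is smaller than every element of the
domain of `t`. This is the condition for the product of `s` and `t` to be defined. -/
def Below (s t : FIN α) : Prop := ∀ i ∈ s.dom, ∀ j ∈ t.dom, i < j

/-- The product of `s` and `t`: the union of the two partial functions (with the value of `s`
at a common point of the domains; there is none when `s` lies below `t`). -/
def mul (s t : FIN α) : FIN α where
  toFun n := (s.toFun n).or (t.toFun n)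
  fin := (s.fin.union t.fin).subset (by
    intro n hn
    by_contra h
    simp only [Set.mem_union, Set.mem_ofPred_eq, not_or, not_not] at h
    exact hn (by simp [h.1, h.2]))

/-- The partial function with empty domain. -/
def empty : FIN α where
  toFun _ := none
  fin := by simp

/-- The coordinate-wise action of a monoid acting on the alphabet. -/
def act {M : Type*} [Monoid M] [MulAction M α] (m : M) (s : FIN α) : FIN α where
  toFun n := (s.toFun n).map (fun a => m • a)
  fin := s.fin.subset (by
    intro n hn h
    exact hn (by simp [h]))

end FIN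

/-- A sequence in `FIN α` is basic if all the products `s i₀ * ⋯ * s iᵣ`, `i₀ < ⋯ < iᵣ`, are
defined, that is, if `s i` lies below `s j` whenever `i < j`. -/
def Basic {α : Type*} (s : ℕ → FIN α) : Prop := ∀ i j, i < j → (s i).Below (s j)

/-- The product `m₀ s_{i₀} * m₁ s_{i₁} * ⋯ * mᵣ s_{iᵣ}` given by the list of the pairs
`(i₀, m₀), …, (iᵣ, mᵣ)`. -/
def prodList {α M : Type*} [Monoid M] [MulAction M α] (s : ℕ → FIN α) :
    List (ℕ × M) → FIN α
  | [] => FIN.empty
  | q :: L => (FIN.act q.2 (s q.1)).mul (prodList s L)

/-- The `M`-span of a sequence: all products `m₀ s_{i₀} * ⋯ * mᵣ s_{iᵣ}` with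
`i₀ < ⋯ < iᵣ` and `mⱼ = 1` for at least one `j`. -/
def Span {α : Type*} (M : Type*) [Monoid M] [MulAction M α] (s : ℕ → FIN α) : Set (FIN α) :=
  {x | ∃ L : List (ℕ × M), L.Pairwise (fun a b => a.1 < b.1) ∧ (∃ q ∈ L, q.2 = 1) ∧
    x = prodList s L}

/-- Property (R) of the pointed `M`-set `(α, p)`: for every finite colouring of `FIN α` there is a
basic sequence, all of whose members have `p` in their range, with monochromatic `M`-span. -/
def PropertyR (M α : Type*) [Monoid M] [MulAction M α] (p : α) : Prop :=
  ∀ (r : ℕ) (c : FIN α → Fin r), ∃ s : ℕ → FIN α, Basic s ∧ (∀ n, p ∈ (s n).ran) ∧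
    ∃ χ : Fin r, ∀ x ∈ Span M s, c x = χ

end Pool.Agent.FINk
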