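import Mathlib

/-!
The Graham-Rothschild theorem (finite dual Ramsey theorem), derived from the
multidimensional Hales-Jewett theorem of Mathlib.
-/

namespace Pool.Agent.FINk

/-- On `[0,n)` the map `s` is a rigid surjection onto `[0,k)`. -/
def Rg (n k : ℕ) (s : ℕ → ℕ) : Prop :=
  (∀ i < n, s i < k) ∧ (∀ v < k, ∃ i < n, s i = v) ∧ (∀ i < n, ∀ v < s i, ∃ j < i, s j = v)

/-- The word of length `n` listing the values of `g`. -/
def cd (n : ℕ) (g : ℕ → ℕ) : List ℕ := (List.range n).map g

/-- `p` is the first position of the letter `i` in the word `t` of length `n`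
(or `p = n` when there is none), all earlier letters being smaller. -/
def FPos (t : ℕ → ℕ) (n i p : ℕ) : Prop := p ≤ n ∧ (∀ q < p, t q < i) ∧ (p < n → t p = i)

lemma cd_congr {n : ℕ} {g g' : ℕ → ℕ} (h : ∀ i < n, g i = g' i) : cd n g = cd n g' := by
  unfold cd
  apply List.map_congr_left
  intro a ha
  exact h a (List.mem_range.1 ha)

@[simp] lemma length_cd (n : ℕ) (g : ℕ → ℕ) : (cd n g).length = n := by simp [cd]

lemma getD_cd {n i : ℕ} (g : ℕ → ℕ) (h : i < n) : (cd n g).getD i 0 = g i := by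
  simp [cd, List.getD, h]

lemma Rg.congr {n k : ℕ} {s s' : ℕ → ℕ} (hs : Rg n k s) (h : ∀ i < n, s' i = s i) :
    Rg n k s' := by
  refine ⟨fun i hi => by rw [h i hi]; exact hs.1 i hi, fun v hv => ?_, fun i hi v hv => ?_⟩
  · obtain ⟨i, hi, hiv⟩ := hs.2.1 v hv
    exact ⟨i, hi, by rw [h i hi]; exact hiv⟩
  · rw [h i hi] at hv
    obtain ⟨j, hj, hjv⟩ := hs.2.2 i hi v hv
    exact ⟨j, hj, by rw [h j (by omega)]; exact hjv⟩

lemma Rg.comp {n m k : ℕ} {s t : ℕ → ℕ} (ht : Rg n m t) (hs : Rg m k s) : Rg n k (s ∘ t) := by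
  refine ⟨fun i hi => hs.1 _ (ht.1 i hi), fun v hv => ?_, fun i hi v hv => ?_⟩
  · obtain ⟨j, hj, hjv⟩ := hs.2.1 v hv
    obtain ⟨i, hi, hij⟩ := ht.2.1 j hj
    exact ⟨i, hi, by simp [hij, hjv]⟩
  · obtain ⟨j, hj, hjv⟩ := hs.2.2 (t i) (ht.1 i hi) v hv
    obtain ⟨q, hq, hqj⟩ := ht.2.2 i hi j hj
    exact ⟨q, hq, by simp [hqj, hjv]⟩

lemma Rg.id (n : ℕ) : Rg n n (fun i => i) :=
  ⟨fun _ hi => hi, fun v hv => ⟨v, hv, rfl⟩, fun _ _ v hv => ⟨v, hv, rfl⟩⟩

lemma Rg.le {n k : ℕ} {s : ℕ → ℕ} (hs : Rg n k s) : ∀ i < n, s i ≤ i := by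
  intro i
  induction i using Nat.strong_induction_on with
  | _ i ih =>
    intro hi
    by_contra hcon
    push Not at hcon
    obtain ⟨j, hj, hjv⟩ := hs.2.2 i hi i hcon
    have := ih j hj (by omega)
    omega

lemma Rg.le_dim {n k : ℕ} {s : ℕ → ℕ} (hs : Rg n k s) : k ≤ n := by
  rcases Nat.eq_zero_or_pos k with h | h
  · omega
  · obtain ⟨i, hi, hik⟩ := hs.2.1 (k - 1) (by omega)
    have := hs.le i hi
    omega

lemma FPos.exists {t : ℕ → ℕ} {n N i : ℕ} (ht : Rg n N t) (hi : i ≤ N) : ∃ p, FPos t n i p := by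
  rcases Nat.lt_or_ge i N with h | h
  · have hex : ∃ q, q < n ∧ t q = i := ht.2.1 i h
    classical
    refine ⟨Nat.find hex, (Nat.find_spec hex).1.le, ?_, fun _ => (Nat.find_spec hex).2⟩
    intro q hq
    have hqn : q < n := lt_trans hq (Nat.find_spec hex).1
    by_contra hcon
    push Not at hcon
    rcases Nat.eq_or_lt_of_le hcon with h1 | h1
    · exact Nat.find_min hex hq ⟨hqn, h1.symm⟩
    · obtain ⟨j, hj, hjv⟩ := ht.2.2 q hqn i h1
      exact Nat.find_min hex (lt_trans hj hq) ⟨by omega, hjv⟩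
  · have : i = N := le_antisymm hi h
    subst this
    exact ⟨n, le_rfl, ht.1, fun h => absurd h (lt_irrefl _)⟩

lemma FPos.unique {t : ℕ → ℕ} {n i p p' : ℕ} (h : FPos t n i p) (h' : FPos t n i p') :
    p = p' := by
  rcases lt_trichotomy p p' with h1 | h1 | h1
  · have := h.2.2 (lt_of_lt_of_le h1 h'.1)
    have := h'.2.1 p h1
    omega
  · exact h1
  · have := h'.2.2 (lt_of_lt_of_le h1 h.1)
    have := h.2.1 p' h1
    omega

lemma Rg.restrict {t : ℕ → ℕ} {n N i p : ℕ} (ht : Rg n N t) (hi : i ≤ N) (hp : FPos t n i p) :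
    Rg p i t := by
  refine ⟨hp.2.1, fun v hv => ?_, fun q hq => ht.2.2 q (lt_of_lt_of_le hq hp.1)⟩
  rcases Nat.eq_or_lt_of_le hp.1 with h | h
  · rw [h]; exact ht.2.1 v (by omega)
  · have := hp.2.2 h
    exact ht.2.2 p h v (by omega)

/-- If `u` composed with `t` has first `i` at `p` and the first `i` of `u` is at `j`,
then the first `j` of `t` is at `p`. -/
lemma FPos.of_comp {t u : ℕ → ℕ} {n M i p j : ℕ} (ht : Rg n M t)
    (huj : FPos u M i j) (hp : FPos (u ∘ t) n i p) : FPos t n j p := by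
  have key : ∀ q < p, t q < j := by
    intro q hq
    by_contra hcon
    push Not at hcon
    have hqn : q < n := lt_of_lt_of_le hq hp.1
    have hjM : j < M := lt_of_le_of_lt hcon (ht.1 q hqn)
    have h1 : ∃ q' ≤ q, t q' = j := by
      rcases Nat.eq_or_lt_of_le hcon with h1 | h1
      · exact ⟨q, le_rfl, h1.symm⟩
      · obtain ⟨q', h2, h3⟩ := ht.2.2 q hqn j h1
        exact ⟨q', h2.le, h3⟩
    obtain ⟨q', h2, h3⟩ := h1
    have h4 := hp.2.1 q' (by omega)
    have h5 := huj.2.2 hjM
    simp only [Function.comp] at h4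
    rw [h3] at h4
    omega
  refine ⟨hp.1, key, fun hpn => ?_⟩
  have h1 := hp.2.2 hpn
  simp only [Function.comp] at h1
  -- `t p ≥ j` because letters below `j` are sent below `i`
  have h2 : j ≤ t p := by
    by_contra hcon
    push Not at hcon
    have := huj.2.1 _ hcon
    omega
  rcases Nat.eq_or_lt_of_le h2 with h3 | h3
  · exact h3.symm
  · obtain ⟨q, hq, hqj⟩ := ht.2.2 p hpn j h3
    have := key q hq
    omega

/-! ### The rigid form of the multidimensional Hales-Jewett theorem -/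

lemma hales_jewett_rigid (a m : ℕ) (κ : Type) [Finite κ] :
    ∃ n' : ℕ, ∀ C : (Fin n' → Fin a) → κ, ∃ v : ℕ → ℕ, Rg (a + n') (a + m) v ∧
      (∀ i < a, v i = i) ∧ ∃ χ : κ, ∀ h : ℕ → ℕ, (∀ i < a, h i = i) →
        (∀ i < a + m, h i < a) → ∀ x : Fin n' → Fin a,
          (∀ q : Fin n', (x q : ℕ) = h (v (a + q))) → C x = χ := by
  obtain ⟨n', hn'⟩ :=
    Combinatorics.Subspace.exists_mono_in_high_dimension_fin (Fin a) κ (Fin m)
  refine ⟨n', fun C => ?_⟩
  obtain ⟨l, χ, hl⟩ := hn' C
  classical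
  have hex : ∀ e : Fin m, ∃ q : ℕ, ∃ hq : q < n', l.idxFun ⟨q, hq⟩ = Sum.inr e := by
    intro e
    obtain ⟨i, hi⟩ := l.proper e
    exact ⟨i, i.2, hi⟩
  let first : Fin m → ℕ := fun e => Nat.find (hex e)
  have hfirst : ∀ e, ∃ hq : first e < n', l.idxFun ⟨first e, hq⟩ = Sum.inr e :=
    fun e => Nat.find_spec (hex e)
  have hfmin : ∀ e (q : ℕ) (hq : q < n'), l.idxFun ⟨q, hq⟩ = Sum.inr e → first e ≤ q :=
    fun e q hq h => Nat.find_min' (hex e) ⟨hq, h⟩
  let π : Equiv.Perm (Fin m) := Tuple.sort first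
  have hmono : Monotone (first ∘ π) := Tuple.monotone_sort first
  have hinj : Function.Injective first := by
    intro e e' h
    obtain ⟨h1, h2⟩ := hfirst e
    obtain ⟨h3, h4⟩ := hfirst e'
    have : (⟨first e, h1⟩ : Fin n') = ⟨first e', h3⟩ := by ext; exact h
    rw [this, h4] at h2
    exact (Sum.inr.inj h2).symm
  let v : ℕ → ℕ := fun p =>
    if p < a then p else
      if hq : p - a < n' then
        Sum.elim (fun x : Fin a => (x : ℕ)) (fun e : Fin m => a + (π.symm e : ℕ))
          (l.idxFun ⟨p - a, hq⟩)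
      else 0
  have hv1 : ∀ i < a, v i = i := fun i hi => by simp [v, hi]
  have hv2 : ∀ (q : ℕ) (hq : q < n'), v (a + q) =
      Sum.elim (fun x : Fin a => (x : ℕ)) (fun e : Fin m => a + (π.symm e : ℕ))
          (l.idxFun ⟨q, hq⟩) := by
    intro q hq
    have h1 : ¬ (a + q < a) := by omega
    have h2 : a + q - a = q := by omega
    simp only [v, h1, if_false, h2, hq, dif_pos]
  have hsplit : ∀ p, p < a + n' → p < a ∨ ∃ q, q < n' ∧ p = a + q := by
    intro p hp
    rcases Nat.lt_or_ge p a with h | h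
    · exact Or.inl h
    · exact Or.inr ⟨p - a, by omega, by omega⟩
  refine ⟨v, ⟨?_, ?_, ?_⟩, hv1, χ, ?_⟩
  · intro p hp
    rcases hsplit p hp with h | ⟨q, hq, rfl⟩
    · rw [hv1 p h]; omega
    · rw [hv2 q hq]
      rcases l.idxFun ⟨q, hq⟩ with x | e
      · simp only [Sum.elim_inl]
        omega
      · simp only [Sum.elim_inr]
        omega
  · intro w hw
    rcases Nat.lt_or_ge w a with h | h
    · exact ⟨w, by omega, hv1 w h⟩
    · have hwm : w - a < m := by omega
      obtain ⟨hq, h2⟩ := hfirst (π ⟨w - a, hwm⟩)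
      refine ⟨a + first (π ⟨w - a, hwm⟩), by omega, ?_⟩
      rw [hv2 _ hq, h2]
      simp
      omega
  · intro p hp w hw
    rcases hsplit p hp with h | ⟨q, hq, rfl⟩
    · rw [hv1 p h] at hw
      exact ⟨w, hw, hv1 w (by omega)⟩
    · rw [hv2 q hq] at hw
      rcases Nat.lt_or_ge w a with h | h
      · exact ⟨w, by omega, hv1 w h⟩
      · rcases hx : l.idxFun ⟨q, hq⟩ with x | e
        · rw [hx] at hw
          simp only [Sum.elim_inl] at hw
          omega
        · rw [hx] at hw
          simp only [Sum.elim_inr] at hw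
          have hwm : w - a < m := by omega
          have hlt : (⟨w - a, hwm⟩ : Fin m) < π.symm e := by
            rw [Fin.lt_def]
            simp only
            omega
          have h1 : first (π ⟨w - a, hwm⟩) ≤ first (π (π.symm e)) := hmono hlt.le
          have h2 : first (π ⟨w - a, hwm⟩) ≠ first e := by
            intro h
            have := hinj h
            rw [← this] at hlt
            simp at hlt
          rw [Equiv.apply_symm_apply] at h1
          have h3 : first e ≤ q := hfmin e q hq hx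
          obtain ⟨hq', h4⟩ := hfirst (π ⟨w - a, hwm⟩)
          refine ⟨a + first (π ⟨w - a, hwm⟩), by omega, ?_⟩
          rw [hv2 _ hq', h4]
          simp
          omega
  · intro h ha hlt x hx
    -- the point of the subspace
    let y : Fin m → Fin a := fun e => ⟨h (a + (π.symm e : ℕ)), hlt _ (by omega)⟩
    have : x = l y := by
      funext q
      apply Fin.ext
      rw [hx q, hv2 q q.2]
      rcases hxx : l.idxFun q with z | e
      · rw [Combinatorics.Subspace.apply_inl hxx]
        simp only [Sum.elim_inl]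
        exact ha _ z.2
      · rw [Combinatorics.Subspace.apply_inr hxx]
        simp only [Sum.elim_inr, y]
    rw [this]
    exact hl y

/-! ### The Graham-Rothschild theorem -/

/-- The Graham-Rothschild theorem for rigid surjections onto `k`. -/
def GR (k : ℕ) : Prop := ∀ (N : ℕ) (κ : Type) [Finite κ], ∃ n, ∀ c : List ℕ → κ, ∃ t, Rg n N t ∧
  ∀ s s', Rg N k s → Rg N k s' → c (cd n (s ∘ t)) = c (cd n (s' ∘ t))

/-- The version for initial parts, the colour depending on the part. -/
def PD (k : ℕ) : Prop := ∀ (N : ℕ) (κ : Type) [Finite κ], ∃ n, ∀ c : List ℕ → κ, ∃ t, Rg n N t ∧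
  ∀ i ≤ N, ∀ p, FPos t n i p → ∀ s s', Rg i k s → Rg i k s' →
    c (cd p (s ∘ t)) = c (cd p (s' ∘ t))

/-- The version for initial parts, one colour for all parts. -/
def PC (k : ℕ) : Prop := ∀ (N : ℕ) (κ : Type) [Finite κ], ∃ n, ∀ c : List ℕ → κ,
  ∃ n' ≤ n, ∃ t, Rg n' N t ∧ ∃ χ : κ, ∀ i ≤ N, ∀ p, FPos t n' i p → ∀ s, Rg i k s →
    c (cd p (s ∘ t)) = χ

/-- The colour of a rigid surjection onto `k + 1` depends only on the part up to the first `k`,
when this `k` is at one of the first `j` places. -/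
def ST (k j : ℕ) : Prop := ∀ (M : ℕ) (κ : Type) [Finite κ], ∃ n, ∀ c : List ℕ → κ,
  ∃ t, Rg n M t ∧ ∀ i < j, i < M → ∀ s s', Rg M (k + 1) s → Rg M (k + 1) s' → s i = k →
    (∀ q < i, s q ≠ k) → (∀ q ≤ i, s' q = s q) → c (cd n (s ∘ t)) = c (cd n (s' ∘ t))

lemma PD_of_GR (k : ℕ) (h : GR k) : PD k := by
  intro N
  induction N with
  | zero =>
    intro κ _
    refine ⟨0, fun c => ⟨fun i => i, Rg.id 0, ?_⟩⟩
    intro i _ p hp s s' _ _
    have : p = 0 := Nat.le_zero.1 hp.1
    subst this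
    rfl
  | succ N ih =>
    intro κ _
    obtain ⟨D, hD⟩ := ih κ
    obtain ⟨L, hL⟩ := h (D + 1) κ
    refine ⟨L, fun c => ?_⟩
    obtain ⟨t1, ht1, hc1⟩ := hL c
    have hpos : ∀ i, ∃ p, i ≤ D + 1 → FPos t1 L i p := by
      intro i
      by_cases hi : i ≤ D + 1
      · obtain ⟨p, hp⟩ := FPos.exists ht1 hi
        exact ⟨p, fun _ => hp⟩
      · exact ⟨0, fun h => absurd h hi⟩
    choose P hP using hpos
    obtain ⟨t2, ht2, hc2⟩ := hD (fun u => c (cd (P u.length) ((fun j => u.getD j 0) ∘ t1)))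
    let t2' : ℕ → ℕ := fun j => if j < D then t2 j else N
    have h2a : ∀ j < D, t2' j = t2 j := fun j hj => by simp [t2', hj]
    have h2b : t2' D = N := by simp [t2']
    have ht2' : Rg (D + 1) (N + 1) t2' := by
      refine ⟨fun j hj => ?_, fun v hv => ?_, fun j hj v hv => ?_⟩
      · rcases Nat.lt_or_ge j D with h1 | h1
        · rw [h2a j h1]
          have := ht2.1 j h1
          omega
        · have : j = D := by omega
          rw [this, h2b]
          omega
      · rcases Nat.lt_or_ge v N with h1 | h1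
        · obtain ⟨i, hi, hiv⟩ := ht2.2.1 v h1
          exact ⟨i, by omega, by rw [h2a i hi]; exact hiv⟩
        · exact ⟨D, by omega, by rw [h2b]; omega⟩
      · rcases Nat.lt_or_ge j D with h1 | h1
        · rw [h2a j h1] at hv
          obtain ⟨i, hi, hiv⟩ := ht2.2.2 j h1 v hv
          exact ⟨i, hi, by rw [h2a i (by omega)]; exact hiv⟩
        · have : j = D := by omega
          rw [this, h2b] at hv
          obtain ⟨i, hi, hiv⟩ := ht2.2.1 v hv
          exact ⟨i, by omega, by rw [h2a i hi]; exact hiv⟩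
    refine ⟨t2' ∘ t1, ht1.comp ht2', ?_⟩
    intro i hi p hp s s' hs hs'
    rcases Nat.lt_or_ge N i with hiN | hiN
    · have hi' : i = N + 1 := by omega
      subst hi'
      have hpL : p = L := by
        rcases Nat.eq_or_lt_of_le hp.1 with h1 | h1
        · exact h1
        · have h3 := hp.2.2 h1
          have h4 := (ht1.comp ht2').1 p h1
          omega
      subst hpL
      exact hc1 (s ∘ t2') (s' ∘ t2') (ht2'.comp hs) (ht2'.comp hs')
    · obtain ⟨p', hp'⟩ := FPos.exists ht2 hiN
      have hp2 : FPos t2' (D + 1) i p' := by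
        refine ⟨by have := hp'.1; omega, fun q hq => ?_, fun h1 => ?_⟩
        · rw [h2a q (lt_of_lt_of_le hq hp'.1)]
          exact hp'.2.1 q hq
        · rcases Nat.eq_or_lt_of_le hp'.1 with h3 | h3
          · rw [h3, h2b]
            by_contra hne
            obtain ⟨q, hq, hqi⟩ := ht2.2.1 i (by omega)
            have := hp'.2.1 q (by omega)
            omega
          · rw [h2a p' h3]
            exact hp'.2.2 h3
      have hpp : FPos t1 L p' p := FPos.of_comp ht1 hp2 hp
      have hPp : P p' = p := (hP p' (by have := hp'.1; omega)).unique hpp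
      have key : ∀ s, c (cd p (s ∘ t2' ∘ t1)) =
          c (cd (P (cd p' (s ∘ t2)).length) ((fun j => (cd p' (s ∘ t2)).getD j 0) ∘ t1)) := by
        intro s
        rw [length_cd, hPp]
        congr 1
        apply cd_congr
        intro q hq
        have h1 : t1 q < p' := hpp.2.1 q hq
        simp only [Function.comp]
        rw [getD_cd _ h1, h2a _ (lt_of_lt_of_le h1 hp'.1)]
        rfl
      have e1 := key s
      have e2 := key s'
      have e3 := hc2 i hiN p' hp' s s' hs hs'
      exact (e1.trans e3).trans e2.symm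

lemma Rg_min (k n : ℕ) (hk : 1 ≤ k) (hn : k ≤ n) : Rg n k (fun j => min j (k - 1)) := by
  refine ⟨fun i _ => ?_, fun v hv => ⟨v, by omega, ?_⟩, fun i _ v hv => ⟨v, ?_, ?_⟩⟩
  all_goals simp only at *
  all_goals omega

lemma PC_of_PD (k : ℕ) (hk : 1 ≤ k) (h : PD k) : PC k := by
  intro N κ _
  by_cases hkN : k ≤ N
  swap
  · refine ⟨N, fun c => ⟨N, le_rfl, fun i => i, Rg.id N, c [], ?_⟩⟩
    intro i hi p _ s hs
    have := hs.le_dim
    omega
  classical
  cases nonempty_fintype κ
  obtain ⟨n, hn⟩ := h (k + Fintype.card κ * N + 1) κ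
  refine ⟨n, fun c => ?_⟩
  obtain ⟨t, ht, hc⟩ := hn c
  have hpos : ∀ i, ∃ p, i ≤ k + Fintype.card κ * N + 1 → FPos t n i p := by
    intro i
    by_cases hi : i ≤ k + Fintype.card κ * N + 1
    · obtain ⟨p, hp⟩ := FPos.exists ht hi
      exact ⟨p, fun _ => hp⟩
    · exact ⟨0, fun h => absurd h hi⟩
  choose P hP using hpos
  let f : ℕ → κ := fun i => c (cd (P i) ((fun j => min j (k - 1)) ∘ t))
  obtain ⟨χ, _, hχ⟩ := Finset.exists_lt_card_fiber_of_mul_lt_card_of_maps_to
    (s := Finset.Ico k (k + Fintype.card κ * N + 1)) (t := (Finset.univ : Finset κ)) (f := f)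
    (n := N) (fun _ _ => Finset.mem_univ _) (by
      rw [Nat.card_Ico, Finset.card_univ]
      omega)
  let I : Finset ℕ := {x ∈ Finset.Ico k (k + Fintype.card κ * N + 1) | f x = χ}
  let e := Finset.orderEmbOfCardLe I (k := N + 1) hχ
  have heI : ∀ a, e a ∈ I := fun a => Finset.orderEmbOfCardLe_mem I hχ a
  let e' : ℕ → ℕ := fun i => if h : i < N + 1 then e ⟨i, h⟩ else 0
  have he' : ∀ i (hi : i ≤ N), e' i = e ⟨i, by omega⟩ := fun i hi => by
    have : i < N + 1 := by omega
    simp only [e']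
    rw [dif_pos this]
  have hlt : ∀ i j, i < j → j ≤ N → e' i < e' j := by
    intro i j hij hj
    rw [he' i (by omega), he' j hj]
    exact e.strictMono (by rw [Fin.lt_def]; exact hij)
  have hle : ∀ i j, i ≤ j → j ≤ N → e' i ≤ e' j := by
    intro i j hij hj
    rcases Nat.eq_or_lt_of_le hij with h | h
    · rw [h]
    · exact (hlt i j h hj).le
  have hinj : ∀ i j, i ≤ N → j ≤ N → e' i = e' j → i = j := by
    intro i j hi hj h
    rcases lt_trichotomy i j with h1 | h1 | h1
    · have := hlt i j h1 hj; omega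
    · exact h1
    · have := hlt j i h1 hi; omega
  have hmem : ∀ i, i ≤ N → k ≤ e' i ∧ e' i ≤ k + Fintype.card κ * N ∧ f (e' i) = χ := by
    intro i hi
    have := heI ⟨i, by omega⟩
    rw [← he' i hi] at this
    simp only [I, Finset.mem_filter, Finset.mem_Ico] at this
    refine ⟨this.1.1, by omega, this.2⟩
  let u : ℕ → ℕ := fun j =>
    if j < e' k then min j (k - 1) else
      if h : ∃ i, k ≤ i ∧ i < N ∧ e' i = j then h.choose else 0
  have hu1 : ∀ j, j < e' k → u j = min j (k - 1) := fun j hj => by simp [u, hj]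
  have hu2 : ∀ i, k ≤ i → i < N → u (e' i) = i := by
    intro i hi hiN
    have h1 : ¬ (e' i < e' k) := by have := hle k i hi (by omega); omega
    have h2 : ∃ i', k ≤ i' ∧ i' < N ∧ e' i' = e' i := ⟨i, hi, hiN, rfl⟩
    have h3 : u (e' i) = h2.choose := by
      simp only [u, h1, if_false]
      rw [dif_pos h2]
    rw [h3]
    exact hinj _ _ h2.choose_spec.2.1.le (by omega) h2.choose_spec.2.2
  have hu3 : ∀ j, (j < e' k) ∨ (∃ i, k ≤ i ∧ i < N ∧ e' i = j) ∨ u j = 0 := by
    intro j
    by_cases h1 : j < e' k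
    · exact Or.inl h1
    · by_cases h2 : ∃ i, k ≤ i ∧ i < N ∧ e' i = j
      · exact Or.inr (Or.inl h2)
      · refine Or.inr (Or.inr ?_)
        simp only [u, h1, if_false]
        rw [dif_neg h2]
  have hek : k ≤ e' k := (hmem k hkN).1
  have hu : Rg (e' N) N u := by
    refine ⟨fun j _ => ?_, fun v hv => ?_, fun j hj v hv => ?_⟩
    · rcases hu3 j with h1 | ⟨i, h1, h2, h3⟩ | h1
      · rw [hu1 j h1]; omega
      · rw [← h3, hu2 i h1 h2]; exact h2
      · rw [h1]; omega
    · rcases Nat.lt_or_ge v k with h1 | h1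
      · refine ⟨v, ?_, ?_⟩
        · have := hle k N hkN le_rfl; omega
        · rw [hu1 v (by omega)]; omega
      · exact ⟨e' v, hlt v N hv le_rfl, hu2 v h1 hv⟩
    · rcases hu3 j with h1 | ⟨i, h1, h2, h3⟩ | h1
      · rw [hu1 j h1] at hv
        refine ⟨v, by omega, ?_⟩
        rw [hu1 v (by omega)]; omega
      · rw [← h3, hu2 i h1 h2] at hv
        rcases Nat.lt_or_ge v k with h4 | h4
        · refine ⟨v, ?_, ?_⟩
          · rw [← h3]
            have := hle k i h1 (by omega); omega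
          · rw [hu1 v (by omega)]; omega
        · refine ⟨e' v, ?_, hu2 v h4 (by omega)⟩
          rw [← h3]
          exact hlt v i hv (by omega)
      · rw [h1] at hv; omega
  have hPN : FPos t n (e' N) (P (e' N)) := hP _ (by have := (hmem N le_rfl).2.1; omega)
  have htN : Rg (P (e' N)) (e' N) t :=
    ht.restrict (by have := (hmem N le_rfl).2.1; omega) hPN
  refine ⟨P (e' N), hPN.1, u ∘ t, htN.comp hu, χ, ?_⟩
  intro i hi p hp s hs
  have hki : k ≤ i := hs.le_dim
  have hui : FPos u (e' N) i (e' i) := by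
    refine ⟨hle i N hi le_rfl, fun q hq => ?_, fun h1 => ?_⟩
    · rcases hu3 q with h1 | ⟨i', h1, h2, h3⟩ | h1
      · rw [hu1 q h1]; omega
      · rw [← h3, hu2 i' h1 h2]
        by_contra hcon
        push Not at hcon
        have := hle i i' hcon h2.le
        omega
      · rw [h1]; omega
    · refine hu2 i hki ?_
      rcases Nat.eq_or_lt_of_le hi with h2 | h2
      · rw [h2] at h1; omega
      · exact h2
  have h1 : FPos t (P (e' N)) (e' i) p := FPos.of_comp htN hui hp
  have h2 : FPos t n (e' i) p := by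
    refine ⟨h1.1.trans hPN.1, h1.2.1, fun hpn => ?_⟩
    rcases Nat.eq_or_lt_of_le h1.1 with h3 | h3
    · have hiN : i = N := by
        by_contra hne
        obtain ⟨q, hq, hqi⟩ := htN.2.1 (e' i) (hlt i N (by omega) le_rfl)
        have := h1.2.1 q (by omega)
        omega
      subst hiN
      rw [h3] at hpn ⊢
      exact hPN.2.2 hpn
    · exact h1.2.2 h3
  have hei : e' i ≤ k + Fintype.card κ * N + 1 := by have := (hmem i hi).2.1; omega
  have h3 : P (e' i) = p := (hP _ hei).unique h2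
  have h4 : Rg (e' i) i u := hu.restrict hi hui
  have h5 := hc (e' i) hei p h2 (s ∘ u) (fun j => min j (k - 1)) (h4.comp hs)
    (Rg_min k (e' i) hk (hmem i hi).1)
  have h6 := (hmem i hi).2.2
  simp only [f, h3] at h6
  rw [← h6, ← h5]
  rfl

lemma ST_zero (k : ℕ) : ST k 0 := by
  intro M κ _
  exact ⟨M, fun c => ⟨fun i => i, Rg.id M, fun i hi => absurd hi (Nat.not_lt_zero i)⟩⟩

lemma ST_succ (k j : ℕ) (h : ST k j) : ST k (j + 1) := by
  intro M κ _
  by_cases hM : M ≤ j
  · obtain ⟨n, hn⟩ := h M κ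
    refine ⟨n, fun c => ?_⟩
    obtain ⟨t, ht, hc⟩ := hn c
    exact ⟨t, ht, fun i _ hiM => hc i (by omega) hiM⟩
  push Not at hM
  obtain ⟨n', hn'⟩ := hales_jewett_rigid (j + 1) (M - (j + 1))
    ((Fin (j + 1) → Fin (k + 1)) → κ)
  obtain ⟨n, hn⟩ := h (j + 1 + n') κ
  refine ⟨n, fun c => ?_⟩
  obtain ⟨t0, ht0, hc⟩ := hn c
  let E : (Fin (j + 1) → Fin (k + 1)) → (Fin n' → Fin (j + 1)) → ℕ → ℕ := fun σ x y =>
    if h : y < j + 1 then (σ ⟨y, h⟩ : ℕ) else
      if h' : y - (j + 1) < n' then (σ (x ⟨y - (j + 1), h'⟩) : ℕ) else 0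
  obtain ⟨v, hv, hvid, χ, hχ⟩ := hn' (fun x σ => c (cd n (E σ x ∘ t0)))
  have hMm : j + 1 + (M - (j + 1)) = M := by omega
  rw [hMm] at hv
  refine ⟨v ∘ t0, ht0.comp hv, ?_⟩
  have claim : ∀ s, Rg M (k + 1) s → s j = k → (∀ q < j, s q ≠ k) →
      ∀ σ : Fin (j + 1) → Fin (k + 1), (∀ y : Fin (j + 1), (σ y : ℕ) = s y) →
        c (cd n (s ∘ v ∘ t0)) = χ σ := by
    intro s hs hsj _ σ hσ
    have hex : ∀ y, ∃ y', (y < j + 1 → y' = y) ∧ (y < M → y' < j + 1 ∧ s y' = s y) := by
      intro y
      by_cases hy : y < j + 1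
      · exact ⟨y, fun _ => rfl, fun _ => ⟨hy, rfl⟩⟩
      · by_cases hyM : y < M
        · have h1 := hs.1 y hyM
          rcases Nat.lt_or_ge (s y) k with h2 | h2
          · obtain ⟨y', h3, h4⟩ := hs.2.2 j hM (s y) (by omega)
            exact ⟨y', fun h => absurd h hy, fun _ => ⟨by omega, h4⟩⟩
          · exact ⟨j, fun h => absurd h hy, fun _ => ⟨by omega, by omega⟩⟩
        · exact ⟨0, fun h => absurd h hy, fun h => absurd h hyM⟩
    choose g hg1 hg2 using hex
    have hx : ∀ q : Fin n', g (v (j + 1 + q)) < j + 1 := fun q =>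
      (hg2 _ (hv.1 _ (by omega))).1
    have hC := hχ g (fun i hi => hg1 i hi) (fun i hi => (hg2 i (by omega)).1)
      (fun q => ⟨g (v (j + 1 + q)), hx q⟩) (fun q => rfl)
    have hC' := congrFun hC σ
    rw [← hC']
    congr 1
    apply cd_congr
    intro p hp
    have hy := ht0.1 p hp
    simp only [Function.comp]
    generalize t0 p = y at hy
    by_cases h1 : y < j + 1
    · simp only [E, h1, dif_pos]
      rw [hvid y h1, hσ]
    · have h2 : y - (j + 1) < n' := by omega
      have h3 : j + 1 + (y - (j + 1)) = y := by omega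
      simp only [E, h1, dif_neg, not_false_iff, h2, dif_pos]
      rw [hσ]
      simp only [h3]
      exact ((hg2 (v y) (hv.1 y hy)).2).symm
  intro i hi hiM s s' hs hs' hsi hsq hss
  rcases Nat.lt_or_ge i j with h1 | h1
  · refine hc i h1 (by omega) (s ∘ v) (s' ∘ v) (hv.comp hs) (hv.comp hs') ?_ ?_ ?_
    · simp only [Function.comp]
      rw [hvid i (by omega)]; exact hsi
    · intro q hq
      simp only [Function.comp]
      rw [hvid q (by omega)]; exact hsq q hq
    · intro q hq
      simp only [Function.comp]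
      rw [hvid q (by omega)]; exact hss q hq
  · have hij : i = j := by omega
    subst hij
    have e1 := claim s hs hsi hsq (fun y => ⟨s y, hs.1 y (by omega)⟩) (fun y => rfl)
    have e2 := claim s' hs' (by rw [hss i le_rfl]; exact hsi)
      (fun q hq => by rw [hss q hq.le]; exact hsq q hq)
      (fun y => ⟨s y, hs.1 y (by omega)⟩) (fun y => (hss y (by omega)).symm)
    exact e1.trans e2.symm

lemma ST_all (k j : ℕ) : ST k j := by
  induction j with
  | zero => exact ST_zero k
  | succ j ih => exact ST_succ k j ih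

lemma GR_one : GR 1 := by
  intro N κ _
  refine ⟨N, fun c => ⟨fun i => i, Rg.id N, fun s s' hs hs' => ?_⟩⟩
  congr 1
  apply cd_congr
  intro i hi
  have h1 := hs.1 i hi
  have h2 := hs'.1 i hi
  simp only [Function.comp]
  omega

lemma GR_succ (k : ℕ) (hk : 1 ≤ k) (h : PC k) : GR (k + 1) := by
  intro N κ _
  by_cases hN : N < k + 1
  · refine ⟨N, fun c => ⟨fun i => i, Rg.id N, fun s s' hs _ => ?_⟩⟩
    have := hs.le_dim
    omega
  push Not at hN
  obtain ⟨nP, hP⟩ := h (N - 1) κ
  obtain ⟨n, hn⟩ := ST_all k (nP + 1) (nP + 1) κ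
  refine ⟨n, fun c => ?_⟩
  obtain ⟨t, ht, hc⟩ := hn c
  let F : List ℕ → ℕ → ℕ := fun σ j =>
    if j < σ.length then σ.getD j 0 else if j = σ.length then k else 0
  obtain ⟨n', hn', w, hw, χ, hχ⟩ := hP (fun σ => c (cd n (F σ ∘ t)))
  let v : ℕ → ℕ := fun j => if j < n' then w j else if j = n' then N - 1 else 0
  have hv1 : ∀ j, j < n' → v j = w j := fun j hj => by simp [v, hj]
  have hv2 : v n' = N - 1 := by simp [v]
  have hv3 : ∀ j, n' < j → v j = 0 := fun j hj => by
    have h1 : ¬ j < n' := by omega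
    have h2 : ¬ j = n' := by omega
    simp [v, h1, h2]
  have hv : Rg (nP + 1) N v := by
    refine ⟨fun j _ => ?_, fun y hy => ?_, fun j _ y hy => ?_⟩
    · rcases lt_trichotomy j n' with h1 | h1 | h1
      · rw [hv1 j h1]
        have := hw.1 j h1
        omega
      · rw [h1, hv2]; omega
      · rw [hv3 j h1]; omega
    · rcases Nat.lt_or_ge y (N - 1) with h1 | h1
      · obtain ⟨i, hi, hiy⟩ := hw.2.1 y h1
        exact ⟨i, by omega, by rw [hv1 i hi]; exact hiy⟩
      · exact ⟨n', by omega, by rw [hv2]; omega⟩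
    · rcases lt_trichotomy j n' with h1 | h1 | h1
      · rw [hv1 j h1] at hy
        obtain ⟨i, hi, hiy⟩ := hw.2.2 j h1 y hy
        exact ⟨i, hi, by rw [hv1 i (by omega)]; exact hiy⟩
      · rw [h1, hv2] at hy
        obtain ⟨i, hi, hiy⟩ := hw.2.1 y hy
        exact ⟨i, by omega, by rw [hv1 i hi]; exact hiy⟩
      · rw [hv3 j h1] at hy; omega
  refine ⟨v ∘ t, ht.comp hv, ?_⟩
  have main : ∀ s, Rg N (k + 1) s → c (cd n (s ∘ v ∘ t)) = χ := by
    intro s hs
    obtain ⟨i, hi⟩ := FPos.exists hs (i := k) (by omega)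
    have hiN : i < N := by
      rcases Nat.eq_or_lt_of_le hi.1 with h1 | h1
      · obtain ⟨q, hq, hqk⟩ := hs.2.1 k (by omega)
        have := hi.2.1 q (by omega)
        omega
      · exact h1
    have hsi : s i = k := hi.2.2 hiN
    have hsr : Rg i k s := hs.restrict (by omega) hi
    obtain ⟨p, hp⟩ := FPos.exists hw (i := i) (by omega)
    have hwr : Rg p i w := hw.restrict (by omega) hp
    have hvp : v p = i := by
      rcases Nat.eq_or_lt_of_le hp.1 with h1 | h1
      · rw [h1, hv2]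
        by_contra hne
        obtain ⟨q, hq, hqi⟩ := hw.2.1 i (by omega)
        have := hp.2.1 q (by omega)
        omega
      · rw [hv1 p h1]
        exact hp.2.2 h1
    have hFlt : ∀ q, q < p → F (cd p (s ∘ w)) q = s (w q) := by
      intro q hq
      simp only [F, length_cd, hq, if_true]
      rw [getD_cd _ hq]
      rfl
    have hFp : F (cd p (s ∘ w)) p = k := by simp [F]
    have hFgt : ∀ q, p < q → F (cd p (s ∘ w)) q = 0 := by
      intro q hq
      have h1 : ¬ q < p := by omega
      have h2 : ¬ q = p := by omega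
      simp [F, h1, h2]
    have hpM : p < nP + 1 := by have := hp.1; omega
    have hswr : Rg p k (s ∘ w) := hwr.comp hsr
    have hF : Rg (nP + 1) (k + 1) (F (cd p (s ∘ w))) := by
      refine ⟨fun q _ => ?_, fun y hy => ?_, fun q _ y hy => ?_⟩
      · rcases lt_trichotomy q p with h1 | h1 | h1
        · rw [hFlt q h1]
          have := hswr.1 q h1
          simp only [Function.comp] at this
          omega
        · rw [h1, hFp]; omega
        · rw [hFgt q h1]; omega
      · rcases Nat.lt_or_ge y k with h1 | h1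
        · obtain ⟨q, hq, hqy⟩ := hswr.2.1 y h1
          exact ⟨q, by omega, by rw [hFlt q hq]; exact hqy⟩
        · exact ⟨p, hpM, by rw [hFp]; omega⟩
      · rcases lt_trichotomy q p with h1 | h1 | h1
        · rw [hFlt q h1] at hy
          obtain ⟨q', hq', hqy⟩ := hswr.2.2 q h1 y hy
          exact ⟨q', hq', by rw [hFlt q' (by omega)]; exact hqy⟩
        · rw [h1, hFp] at hy
          obtain ⟨q', hq', hqy⟩ := hswr.2.1 y hy
          exact ⟨q', by omega, by rw [hFlt q' hq']; exact hqy⟩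
        · rw [hFgt q h1] at hy; omega
    have e1 := hc p hpM hpM (s ∘ v) (F (cd p (s ∘ w))) (hv.comp hs) hF
      (by simp only [Function.comp]; rw [hvp]; exact hsi)
      (by
        intro q hq
        simp only [Function.comp]
        rw [hv1 q (lt_of_lt_of_le hq hp.1)]
        have := hi.2.1 _ (hp.2.1 q hq)
        omega)
      (by
        intro q hq
        rcases Nat.eq_or_lt_of_le hq with h1 | h1
        · rw [h1, hFp]
          simp only [Function.comp]
          rw [hvp, hsi]
        · rw [hFlt q h1]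
          simp only [Function.comp]
          rw [hv1 q (lt_of_lt_of_le h1 hp.1)])
    have e2 := hχ i (by omega) p hp s hsr
    exact e1.trans e2
  intro s s' hs hs'
  exact (main s hs).trans (main s' hs').symm

/-- The Graham-Rothschild theorem. -/
theorem gr (k : ℕ) (hk : 1 ≤ k) : GR k := by
  induction k, hk using Nat.le_induction with
  | base => exact GR_one
  | succ k hk ih => exact GR_succ k hk (PC_of_PD k hk (PD_of_GR k ih))

/-- The Graham-Rothschild theorem for all ranks up to `K` at once. -/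
theorem gr_all (K : ℕ) : ∀ (N : ℕ) (κ : Type) [Finite κ], ∃ n, ∀ c : List ℕ → κ, ∃ t,
    Rg n N t ∧ ∀ k ≤ K, 1 ≤ k → ∀ s s', Rg N k s → Rg N k s' →
      c (cd n (s ∘ t)) = c (cd n (s' ∘ t)) := by
  induction K with
  | zero =>
    intro N κ _
    exact ⟨N, fun c => ⟨fun i => i, Rg.id N, fun k hk hk1 => by omega⟩⟩
  | succ K ih =>
    intro N κ _
    obtain ⟨M, hM⟩ := ih N κ
    obtain ⟨n, hn⟩ := gr (K + 1) (by omega) M κ
    refine ⟨n, fun c => ?_⟩
    obtain ⟨t1, ht1, hc1⟩ := hn c
    obtain ⟨t2, ht2, hc2⟩ := hM (fun u => c (cd n ((fun j => u.getD j 0) ∘ t1)))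
    refine ⟨t2 ∘ t1, ht1.comp ht2, ?_⟩
    intro k hk hk1 s s' hs hs'
    rcases Nat.eq_or_lt_of_le hk with h1 | h1
    · subst h1
      exact hc1 (s ∘ t2) (s' ∘ t2) (ht2.comp hs) (ht2.comp hs')
    · have key : ∀ s, c (cd n (s ∘ t2 ∘ t1)) =
          c (cd n ((fun j => (cd M (s ∘ t2)).getD j 0) ∘ t1)) := by
        intro s
        congr 1
        apply cd_congr
        intro q hq
        simp only [Function.comp]
        rw [getD_cd _ (ht1.1 q hq)]
        rfl
      rw [key s, key s']
      exact hc2 k (by omega) hk1 s s' hs hs'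

end Pool.Agent.FINk
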