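import Mathlib
import Pool.Agent.FINk.Defs
import Pool.Agent.FINk.GR
import Pool.Agent.FINk.Chain

/-!
Ultrafilters on `FIN ℕ`: a decreasing chain of idempotents coherent for all rigid maps.
-/

namespace Pool.Agent.FINk

open Filter Topology

namespace FIN

variable {α β : Type*}

lemma ext' {s t : FIN α} (h : ∀ n, s.toFun n = t.toFun n) : s = t := by
  cases s; cases t
  simp only [FIN.mk.injEq]
  exact funext h

/-- Letterwise application of a map. -/
def map (f : α → β) (s : FIN α) : FIN β where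
  toFun n := (s.toFun n).map f
  fin := s.fin.subset (by
    intro n hn h
    exact hn (by simp [h]))

@[simp] lemma map_toFun (f : α → β) (s : FIN α) (n : ℕ) :
    (s.map f).toFun n = (s.toFun n).map f := rfl

@[simp] lemma mul_toFun (s t : FIN α) (n : ℕ) :
    (s.mul t).toFun n = (s.toFun n).or (t.toFun n) := rfl

instance : Mul (FIN α) := ⟨FIN.mul⟩

lemma mul_def (s t : FIN α) : s * t = s.mul t := rfl

@[simp] lemma mul_toFun' (s t : FIN α) (n : ℕ) :
    (s * t).toFun n = (s.toFun n).or (t.toFun n) := rfl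

instance : Semigroup (FIN α) where
  mul_assoc a b c := by
    apply ext'
    intro n
    simp [Option.or_assoc]

lemma map_mul (f : α → β) (s t : FIN α) : (s * t).map f = s.map f * t.map f := by
  apply ext'
  intro n
  simp only [map_toFun, mul_toFun']
  cases s.toFun n <;> simp

lemma map_map {γ : Type*} (g : β → γ) (f : α → β) (s : FIN α) :
    (s.map f).map g = s.map (g ∘ f) := by
  apply ext'
  intro n
  simp

lemma ran_map (f : α → β) (s : FIN α) : (s.map f).ran = f '' s.ran := by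
  ext b
  simp only [ran, map_toFun, Option.map_eq_some_iff, Set.mem_ofPred_eq, Set.mem_image]
  constructor
  · rintro ⟨n, a, h1, h2⟩
    exact ⟨a, ⟨n, h1⟩, h2⟩
  · rintro ⟨a, ⟨n, h1⟩, h2⟩
    exact ⟨n, a, h1, h2⟩

lemma mem_ran_mul_left {s t : FIN α} {a : α} (h : a ∈ s.ran) : a ∈ (s * t).ran := by
  obtain ⟨n, hn⟩ := h
  exact ⟨n, by simp [hn]⟩

lemma mem_ran_mul_right {s t : FIN α} (hst : s.Below t) {a : α} (h : a ∈ t.ran) :
    a ∈ (s * t).ran := by
  obtain ⟨n, hn⟩ := h
  refine ⟨n, ?_⟩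
  have : s.toFun n = none := by
    by_contra hne
    have := hst n hne n (by show t.toFun n ≠ none; simp [hn])
    exact lt_irrefl _ this
  simp [this, hn]

lemma ran_mul_subset (s t : FIN α) : (s * t).ran ⊆ s.ran ∪ t.ran := by
  rintro a ⟨n, hn⟩
  simp only [mul_toFun', Option.or_eq_some_iff] at hn
  rcases hn with h | h
  · exact Or.inl ⟨n, h⟩
  · exact Or.inr ⟨n, h.2⟩

lemma ran_mul {s t : FIN α} (hst : s.Below t) : (s * t).ran = s.ran ∪ t.ran := by
  apply Set.Subset.antisymm (ran_mul_subset s t)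
  rintro a (h | h)
  · exact mem_ran_mul_left h
  · exact mem_ran_mul_right hst h

instance : Nonempty (FIN α) := ⟨FIN.empty⟩

/-- A bound for the domain. -/
lemma exists_bound (s : FIN α) : ∃ N, ∀ n ∈ s.dom, n ≤ N := by
  obtain ⟨N, hN⟩ := s.fin.bddAbove
  exact ⟨N, fun n hn => hN hn⟩

end FIN

/-! ### Ultrafilters -/

attribute [local instance] Ultrafilter.semigroup

/-- The functions vanish on larger and larger initial segments. -/
def Cof (U : Ultrafilter (FIN ℕ)) : Prop := ∀ n, ∀ᶠ g in (U : Filter (FIN ℕ)), ∀ i ≤ n, g.toFun i = none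

/-- The ultrafilters of level `l`. -/
def ZZ (l : ℕ) : Set (Ultrafilter (FIN ℕ)) :=
  {U | Cof U ∧ ∀ᶠ g in (U : Filter (FIN ℕ)), g.ran = Set.Iic l}

/-- The action of maps. -/
def rho (f : ℕ → ℕ) (U : Ultrafilter (FIN ℕ)) : Ultrafilter (FIN ℕ) := U.map (FIN.map f)

lemma eventually_rho (f : ℕ → ℕ) (U : Ultrafilter (FIN ℕ)) (p : FIN ℕ → Prop) :
    (∀ᶠ g in (rho f U : Filter (FIN ℕ)), p g) ↔ ∀ᶠ g in (U : Filter (FIN ℕ)), p (g.map f) :=
  Iff.rfl

lemma rho_mul (f : ℕ → ℕ) (U V : Ultrafilter (FIN ℕ)) : rho f (U * V) = rho f U * rho f V := by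
  apply Ultrafilter.coe_inj.mp
  apply Filter.ext'
  intro p
  rw [eventually_rho, Ultrafilter.eventually_mul, Ultrafilter.eventually_mul, eventually_rho]
  simp only [eventually_rho, FIN.map_mul]

lemma rho_rho (f g : ℕ → ℕ) (U : Ultrafilter (FIN ℕ)) : rho f (rho g U) = rho (f ∘ g) U := by
  apply Ultrafilter.coe_inj.mp
  apply Filter.ext'
  intro p
  simp only [eventually_rho, FIN.map_map]

lemma continuous_rho (f : ℕ → ℕ) : Continuous (rho f) :=
  ultrafilterBasis_is_basis.continuous_iff.2 <| Set.forall_mem_range.mpr fun s =>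
    ultrafilter_isOpen_basic ((FIN.map f) ⁻¹' s)

lemma isClosed_ZZ (l : ℕ) : IsClosed (ZZ l) := by
  have h1 : ∀ n, IsClosed {U : Ultrafilter (FIN ℕ) | ∀ᶠ g in (U : Filter (FIN ℕ)),
      ∀ i ≤ n, g.toFun i = none} := fun n =>
    ultrafilter_isClosed_basic {g : FIN ℕ | ∀ i ≤ n, g.toFun i = none}
  have h2 : IsClosed {U : Ultrafilter (FIN ℕ) | ∀ᶠ g in (U : Filter (FIN ℕ)),
      g.ran = Set.Iic l} :=
    ultrafilter_isClosed_basic {g : FIN ℕ | g.ran = Set.Iic l}
  have : ZZ l = (⋂ n, {U : Ultrafilter (FIN ℕ) | ∀ᶠ g in (U : Filter (FIN ℕ)),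
      ∀ i ≤ n, g.toFun i = none}) ∩ {U : Ultrafilter (FIN ℕ) |
      ∀ᶠ g in (U : Filter (FIN ℕ)), g.ran = Set.Iic l} := by
    ext U
    simp only [ZZ, Cof, Set.mem_ofPred_eq, Set.mem_inter_iff, Set.mem_iInter]
  rw [this]
  exact (isClosed_iInter h1).inter h2

lemma cof_mul {U V : Ultrafilter (FIN ℕ)} (hU : Cof U) (hV : Cof V) : Cof (U * V) := by
  intro n
  rw [Ultrafilter.eventually_mul]
  filter_upwards [hU n] with g hg
  filter_upwards [hV n] with h hh i hi
  simp [hg i hi, hh i hi]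

/-- For a cofinite ultrafilter, most members lie above a given partial function. -/
lemma Cof.below {V : Ultrafilter (FIN ℕ)} (hV : Cof V) (s : FIN ℕ) :
    ∀ᶠ g in (V : Filter (FIN ℕ)), s.Below g := by
  obtain ⟨N, hN⟩ := s.exists_bound
  filter_upwards [hV N] with g hg i hi j hj
  by_contra hcon
  push Not at hcon
  exact hj (hg j (hcon.trans (hN i hi)))

lemma ZZ_mul_left (i l : ℕ) (h : i ≤ l) : ∀ a ∈ ZZ i, ∀ b ∈ ZZ l, a * b ∈ ZZ l := by
  intro a ha b hb
  refine ⟨cof_mul ha.1 hb.1, ?_⟩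
  rw [Ultrafilter.eventually_mul]
  filter_upwards [ha.2] with g hg
  filter_upwards [hb.2, hb.1.below g] with g' hg' hlt
  rw [FIN.ran_mul hlt, hg, hg']
  ext x
  simp only [Set.mem_union, Set.mem_Iic]
  omega

lemma ZZ_mul_right (i l : ℕ) (h : i ≤ l) : ∀ a ∈ ZZ l, ∀ b ∈ ZZ i, a * b ∈ ZZ l := by
  intro a ha b hb
  refine ⟨cof_mul ha.1 hb.1, ?_⟩
  rw [Ultrafilter.eventually_mul]
  filter_upwards [ha.2] with g hg
  filter_upwards [hb.2, hb.1.below g] with g' hg' hlt
  rw [FIN.ran_mul hlt, hg, hg']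
  ext x
  simp only [Set.mem_union, Set.mem_Iic]
  omega

/-! ### Existence of a coherent system -/

/-- The word `w` placed after position `n0`. -/
def loc (n0 : ℕ) (w : List ℕ) : FIN ℕ where
  toFun i := if i ≤ n0 then none else w[i - n0 - 1]?
  fin := (Set.finite_Iic (n0 + 1 + w.length)).subset (by
    intro i hi
    simp only [Set.mem_Iic]
    by_contra hcon
    push Not at hcon
    apply hi
    have h1 : ¬ i ≤ n0 := by omega
    simp only [h1, if_false]
    rw [List.getElem?_eq_none_iff]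
    omega)

lemma map_loc (n0 n : ℕ) (f t : ℕ → ℕ) : (loc n0 (cd n t)).map f = loc n0 (cd n (f ∘ t)) := by
  apply FIN.ext'
  intro i
  simp only [FIN.map_toFun, loc, cd]
  split_ifs
  · rfl
  · simp

lemma ran_loc {n0 n N : ℕ} {t : ℕ → ℕ} (ht : Rg n (N + 1) t) :
    (loc n0 (cd n t)).ran = Set.Iic N := by
  ext v
  simp only [FIN.ran, Set.mem_ofPred_eq, Set.mem_Iic]
  constructor
  · rintro ⟨i, hi⟩
    simp only [loc, cd] at hi
    split_ifs at hi with h
    rw [List.getElem?_map] at hi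
    rcases Nat.lt_or_ge (i - n0 - 1) n with h1 | h1
    · rw [List.getElem?_range h1] at hi
      simp only [Option.map_some, Option.some.injEq] at hi
      have := ht.1 _ h1
      omega
    · rw [List.getElem?_eq_none_iff.2 (by simpa using h1)] at hi
      simp at hi
  · intro hv
    obtain ⟨q, hq, hqv⟩ := ht.2.1 v (by omega)
    refine ⟨n0 + 1 + q, ?_⟩
    simp only [loc, cd]
    have h1 : ¬ (n0 + 1 + q ≤ n0) := by omega
    have h2 : n0 + 1 + q - n0 - 1 = q := by omega
    simp only [h1, if_false, h2]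
    rw [List.getElem?_map, List.getElem?_range hq]
    simp [hqv]

lemma Rigid.rg {f : ℕ → ℕ} (hf : Rigid f) (l : ℕ) : Rg (l + 1) (fmax f l + 1) f := by
  have key : ∀ l, (∀ v ≤ fmax f l, ∃ i ≤ l, f i = v) := by
    intro l
    induction l with
    | zero =>
      intro v hv
      rw [hf.fmax_zero] at hv
      exact ⟨0, le_rfl, by rw [hf.1]; omega⟩
    | succ l ih =>
      intro v hv
      by_cases h : v ≤ fmax f l
      · obtain ⟨i, hi, hiv⟩ := ih v h
        exact ⟨i, by omega, hiv⟩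
      · refine ⟨l + 1, le_rfl, ?_⟩
        have := hf.2 l
        simp only [fmax] at hv
        omega
  refine ⟨fun i hi => ?_, fun v hv => ?_, fun i _ v hv => ?_⟩
  · have := le_fmax f i l (by omega)
    omega
  · obtain ⟨i, hi, hiv⟩ := key l v (by omega)
    exact ⟨i, by omega, hiv⟩
  · cases i with
    | zero => rw [hf.1] at hv; omega
    | succ i =>
      have := hf.2 i
      obtain ⟨j, hj, hjv⟩ := key i v (by omega)
      exact ⟨j, by omega, hjv⟩

/-- The sets generating the filter. -/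
def BB (K : ℕ) (q : Finset (Set (FIN ℕ)) × ℕ) : Set (FIN ℕ) :=
  {g | (∀ i ≤ q.2, g.toFun i = none) ∧ g.ran = Set.Iic K ∧
    ∀ f f', Rigid f → Rigid f' → fmax f K = fmax f' K → ∀ A ∈ q.1,
      (g.map f ∈ A ↔ g.map f' ∈ A)}

lemma BB_nonempty (K : ℕ) (q : Finset (Set (FIN ℕ)) × ℕ) : (BB K q).Nonempty := by
  classical
  obtain ⟨n, hn⟩ := gr_all (K + 1) (K + 1) (q.1 → Prop)
  obtain ⟨t, ht, hc⟩ := hn (fun w A => loc q.2 w ∈ A.1)
  refine ⟨loc q.2 (cd n t), ?_, ran_loc ht, ?_⟩
  · intro i hi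
    simp [loc, hi]
  · intro f f' hf hf' hff A hA
    have h1 := hf.rg K
    have h2 := hf'.rg K
    rw [← hff] at h2
    have h3 := hc (fmax f K + 1) (by have := hf.fmax_le K; omega) (by omega) f f' h1 h2
    have h4 := congrFun h3 ⟨A, hA⟩
    simp only [eq_iff_iff] at h4
    rw [map_loc, map_loc]
    exact h4

lemma exists_base (K : ℕ) : ∃ V : Ultrafilter (FIN ℕ), V ∈ ZZ K ∧
    ∀ f f', Rigid f → Rigid f' → fmax f K = fmax f' K → rho f V = rho f' V := by
  classical
  let F : Filter (FIN ℕ) := ⨅ q : Finset (Set (FIN ℕ)) × ℕ, 𝓟 (BB K q)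
  have hdir : Directed (· ≥ ·) (fun q : Finset (Set (FIN ℕ)) × ℕ => 𝓟 (BB K q)) := by
    intro q q'
    refine ⟨(q.1 ∪ q'.1, max q.2 q'.2), ?_, ?_⟩
    · simp only [ge_iff_le, le_principal_iff, mem_principal]
      rintro g ⟨h1, h2, h3⟩
      exact ⟨fun i hi => h1 i (le_trans hi (le_max_left _ _)), h2,
        fun f f' hf hf' hff A hA => h3 f f' hf hf' hff A (Finset.mem_union_left _ hA)⟩
    · simp only [ge_iff_le, le_principal_iff, mem_principal]
      rintro g ⟨h1, h2, h3⟩
      exact ⟨fun i hi => h1 i (le_trans hi (le_max_right _ _)), h2,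
        fun f f' hf hf' hff A hA => h3 f f' hf hf' hff A (Finset.mem_union_right _ hA)⟩
  have hne : F.NeBot := by
    refine iInf_neBot_of_directed hdir ?_
    intro q
    exact principal_neBot_iff.2 (BB_nonempty K q)
  let V := Ultrafilter.of F
  have hV : ∀ q, ∀ᶠ g in (V : Filter (FIN ℕ)), g ∈ BB K q := by
    intro q
    have h1 : BB K q ∈ F := mem_iInf_of_mem q (mem_principal_self _)
    exact Ultrafilter.of_le F h1
  refine ⟨V, ⟨fun n => ?_, ?_⟩, fun f f' hf hf' hff => ?_⟩
  · filter_upwards [hV (∅, n)] with g hg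
    exact hg.1
  · filter_upwards [hV (∅, 0)] with g hg
    exact hg.2.1
  · apply Ultrafilter.coe_inj.mp
    apply Filter.ext'
    intro p
    rw [eventually_rho, eventually_rho]
    have h1 := hV ({ {g | p g} }, 0)
    have h2 : ∀ᶠ g in (V : Filter (FIN ℕ)), (p (g.map f) ↔ p (g.map f')) := by
      filter_upwards [h1] with g hg
      exact hg.2.2 f f' hf hf' hff {g | p g} (by simp)
    exact eventually_congr h2

lemma rigid_min (l : ℕ) : Rigid (fun j => min j l) ∧ ∀ i, fmax (fun j => min j l) i = min i l := by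
  have h : ∀ i, fmax (fun j => min j l) i = min i l := by
    intro i
    induction i with
    | zero => rfl
    | succ i ih => simp only [fmax]; rw [ih]; omega
  refine ⟨⟨by simp, fun i => ?_⟩, h⟩
  rw [h]
  show min (i + 1) l ≤ min i l + 1
  omega

lemma rigid_comp_min {f : ℕ → ℕ} (hf : Rigid f) (l : ℕ) :
    Rigid (f ∘ fun j => min j l) ∧
      ∀ i, fmax (f ∘ fun j => min j l) i = fmax f (min i l) := by
  have h : ∀ i, fmax (f ∘ fun j => min j l) i = fmax f (min i l) := by
    intro i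
    induction i with
    | zero => simp [fmax]
    | succ i ih =>
      simp only [fmax]
      rw [ih]
      rcases Nat.lt_or_ge i l with h1 | h1
      · have e1 : min i l = i := by omega
        have e2 : min (i + 1) l = i + 1 := by omega
        simp only [Function.comp, e1, e2, fmax]
      · have e1 : min i l = l := by omega
        have e2 : min (i + 1) l = l := by omega
        simp only [Function.comp, e1, e2]
        exact max_eq_left (le_fmax f l l le_rfl)
  refine ⟨⟨by simp [hf.1], fun i => ?_⟩, h⟩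
  rw [h]
  simp only [Function.comp]
  rcases Nat.lt_or_ge i l with h1 | h1
  · have e1 : min i l = i := by omega
    have e2 : min (i + 1) l = i + 1 := by omega
    rw [e1, e2]
    exact hf.2 i
  · have e1 : min i l = l := by omega
    have e2 : min (i + 1) l = l := by omega
    rw [e1, e2]
    have := le_fmax f l l le_rfl
    omega

lemma rho_mem_ZZ {K l : ℕ} (hl : l ≤ K) {V : Ultrafilter (FIN ℕ)} (hV : V ∈ ZZ K) :
    rho (fun j => min j l) V ∈ ZZ l := by
  refine ⟨fun n => ?_, ?_⟩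
  · rw [eventually_rho]
    filter_upwards [hV.1 n] with g hg i hi
    simp [hg i hi]
  · rw [eventually_rho]
    filter_upwards [hV.2] with g hg
    rw [FIN.ran_map, hg]
    ext v
    simp only [Set.mem_image, Set.mem_Iic]
    constructor
    · rintro ⟨x, _, rfl⟩
      omega
    · intro hv
      exact ⟨v, by omega, by omega⟩

lemma exists_coh (K : ℕ) : ∃ x : ℕ → Ultrafilter (FIN ℕ), Coh rho ZZ K x := by
  obtain ⟨V, hV, hrho⟩ := exists_base K
  refine ⟨fun l => rho (fun j => min j l) V, fun l hl => rho_mem_ZZ hl hV, ?_⟩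
  intro l hl f hf
  simp only
  rw [rho_rho]
  obtain ⟨h1, h2⟩ := rigid_comp_min hf l
  obtain ⟨h3, h4⟩ := rigid_min (fmax f l)
  refine hrho _ _ h1 h3 ?_
  rw [h2, h4]
  have e1 : min K l = l := by omega
  rw [e1]
  have := hf.fmax_le l
  omega

/-- The chain of coherent idempotent ultrafilters. -/
theorem exists_ultra_chain (K : ℕ) : ∃ x : ℕ → Ultrafilter (FIN ℕ), Coh rho ZZ K x ∧
    ∀ i ≤ K, ∀ j ≤ K, x i * x j = x (max i j) :=
  exists_chain (fun V => Ultrafilter.continuous_mul_left V) continuous_rho rho_mul isClosed_ZZ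
    ZZ_mul_left ZZ_mul_right (exists_coh K)

end Pool.Agent.FINk
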