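import Mathlib
import Pool.Agent.FINk.Located

/-!
From the chain of ultrafilters to sequences with monochromatic span.
-/

namespace Pool.Agent.FINk

open Filter Topology

attribute [local instance] Ultrafilter.semigroup

lemma FIN.empty_mul' (s : FIN ℕ) : FIN.empty * s = s := by
  apply FIN.ext'
  intro n
  simp [FIN.empty]

lemma FIN.mul_empty' (s : FIN ℕ) : s * FIN.empty = s := by
  apply FIN.ext'
  intro n
  simp [FIN.empty]

/-- The products given by lists of pairs (index, map). -/
def prodL {ι : Type} (μ : ι → ℕ → ℕ) (s : ℕ → FIN ℕ) : List (ℕ × ι) → FIN ℕ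
  | [] => FIN.empty
  | q :: L => (s q.1).map (μ q.2) * prodL μ s L

lemma prodL_append {ι : Type} (μ : ι → ℕ → ℕ) (s : ℕ → FIN ℕ) (L : List (ℕ × ι))
    (q : ℕ × ι) : prodL μ s (L ++ [q]) = prodL μ s L * (s q.1).map (μ q.2) := by
  induction L with
  | nil => simp only [List.nil_append, prodL, FIN.mul_empty', FIN.empty_mul']
  | cons a L ih => simp only [List.cons_append, prodL, ih, mul_assoc]

/-- All products formed from a finite history, with a flag recording the use of a map of
full rank. -/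
def prods {ι : Type} (μ : ι → ℕ → ℕ) (K : ℕ) : List (FIN ℕ) → Set (FIN ℕ × Bool)
  | [] => {(FIN.empty, false)}
  | s :: H => prods μ K H ∪
      ⋃ a : ι, (fun q : FIN ℕ × Bool =>
        (q.1 * s.map (μ a), q.2 || decide (fmax (μ a) K = K))) '' prods μ K H

lemma prods_finite {ι : Type} [Finite ι] (μ : ι → ℕ → ℕ) (K : ℕ) (H : List (FIN ℕ)) :
    (prods μ K H).Finite := by
  induction H with
  | nil => exact Set.finite_singleton _
  | cons s H ih => exact ih.union (Set.finite_iUnion fun a => ih.image _)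

section
variable (x : ℕ → Ultrafilter (FIN ℕ)) (K : ℕ) (A : Set (FIN ℕ))

/-- Good products with a map of full rank. -/
def A1 : Set (FIN ℕ) := {q | q ∈ A ∧ ∀ j ≤ K, ∀ᶠ z in (x j : Filter (FIN ℕ)), q * z ∈ A}

/-- Good products without a map of full rank. -/
def A0 : Set (FIN ℕ) := {q | ∀ᶠ z in (x K : Filter (FIN ℕ)), q * z ∈ A1 x K A}

variable {x K A}

lemma eventually_A1 (hx : ∀ i ≤ K, ∀ j ≤ K, x i * x j = x (max i j))
    (hA : ∀ᶠ g in (x K : Filter (FIN ℕ)), g ∈ A) :
    ∀ᶠ g in (x K : Filter (FIN ℕ)), g ∈ A1 x K A := by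
  have h1 : ∀ᶠ g in (x K : Filter (FIN ℕ)), ∀ j ∈ Set.Iic K,
      ∀ᶠ z in (x j : Filter (FIN ℕ)), g * z ∈ A := by
    rw [eventually_all_finite (Set.finite_Iic K)]
    intro j hj
    rw [← Ultrafilter.eventually_mul (x K) (x j) (fun g => g ∈ A), hx K le_rfl j hj]
    rw [max_eq_left hj]
    exact hA
  filter_upwards [hA, h1] with g h2 h3
  exact ⟨h2, fun j hj => h3 j hj⟩

lemma A1_step (hx : ∀ i ≤ K, ∀ j ≤ K, x i * x j = x (max i j)) {q : FIN ℕ}
    (hq : q ∈ A1 x K A) {j : ℕ} (hj : j ≤ K) :
    ∀ᶠ z in (x j : Filter (FIN ℕ)), q * z ∈ A1 x K A := by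
  have h1 : ∀ᶠ z in (x j : Filter (FIN ℕ)), ∀ i ∈ Set.Iic K,
      ∀ᶠ z' in (x i : Filter (FIN ℕ)), q * z * z' ∈ A := by
    rw [eventually_all_finite (Set.finite_Iic K)]
    intro i hi
    simp only [mul_assoc]
    rw [← Ultrafilter.eventually_mul (x j) (x i) (fun g => q * g ∈ A), hx j hj i hi]
    exact hq.2 _ (max_le hj hi)
  filter_upwards [hq.2 j hj, h1] with z h2 h3
  exact ⟨h2, fun i hi => h3 i hi⟩

lemma A0_step (hx : ∀ i ≤ K, ∀ j ≤ K, x i * x j = x (max i j)) {q : FIN ℕ}
    (hq : q ∈ A0 x K A) {j : ℕ} (hj : j ≤ K) :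
    ∀ᶠ z in (x j : Filter (FIN ℕ)), q * z ∈ A0 x K A := by
  have h1 : ∀ᶠ z in (x j : Filter (FIN ℕ)),
      ∀ᶠ z' in (x K : Filter (FIN ℕ)), q * z * z' ∈ A1 x K A := by
    simp only [mul_assoc]
    rw [← Ultrafilter.eventually_mul (x j) (x K) (fun g => q * g ∈ A1 x K A),
      hx j hj K le_rfl, max_eq_right hj]
    exact hq
  exact h1

lemma empty_mem_A0 (hx : ∀ i ≤ K, ∀ j ≤ K, x i * x j = x (max i j))
    (hA : ∀ᶠ g in (x K : Filter (FIN ℕ)), g ∈ A) : FIN.empty ∈ A0 x K A := by
  simp only [A0, Set.mem_ofPred_eq, FIN.empty_mul']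
  exact eventually_A1 hx hA

end

/-- Sequences with all full products in a given large set. -/
theorem exists_sequence {ι : Type} [Finite ι] (μ : ι → ℕ → ℕ) (hμ : ∀ a, Rigid (μ a)) (K : ℕ)
    (x : ℕ → Ultrafilter (FIN ℕ)) (hc : Coh rho ZZ K x)
    (hx : ∀ i ≤ K, ∀ j ≤ K, x i * x j = x (max i j)) (A : Set (FIN ℕ))
    (hA : ∀ᶠ g in (x K : Filter (FIN ℕ)), g ∈ A) :
    ∃ s : ℕ → FIN ℕ, (∀ i j, i < j → (s i).Below (s j)) ∧ (∀ n, (s n).ran = Set.Iic K) ∧
      ∀ L : List (ℕ × ι), L.Pairwise (fun a b => a.1 < b.1) →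
        (∃ q ∈ L, fmax (μ q.2) K = K) → prodL μ s L ∈ A := by
  classical
  let Inv : List (FIN ℕ) → Prop := fun H => ∀ q ∈ prods μ K H,
    (q.2 = true → q.1 ∈ A1 x K A) ∧ (q.2 = false → q.1 ∈ A0 x K A)
  have hrho : ∀ (a : ι) (p : FIN ℕ → Prop),
      (∀ᶠ z in (x (fmax (μ a) K) : Filter (FIN ℕ)), p z) →
      ∀ᶠ z in (x K : Filter (FIN ℕ)), p (z.map (μ a)) := by
    intro a p hp
    rw [← hc.2 K le_rfl (μ a) (hμ a)] at hp
    exact hp
  have step : ∀ H, ∃ s : FIN ℕ, Inv H → (Inv (s :: H) ∧ s.ran = Set.Iic K ∧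
      ∀ h ∈ H, h.Below s) := by
    intro H
    by_cases hH : Inv H
    swap
    · exact ⟨FIN.empty, fun h => absurd h hH⟩
    have e1 : ∀ᶠ s in (x K : Filter (FIN ℕ)), ∀ q ∈ prods μ K H, ∀ a : ι,
        ((q.2 || decide (fmax (μ a) K = K)) = true → q.1 * s.map (μ a) ∈ A1 x K A) ∧
        ((q.2 || decide (fmax (μ a) K = K)) = false → q.1 * s.map (μ a) ∈ A0 x K A) := by
      rw [eventually_all_finite (prods_finite μ K H)]
      intro q hq
      rw [eventually_all]
      intro a
      have hq' := hH q hq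
      have hle : fmax (μ a) K ≤ K := (hμ a).fmax_le K
      rcases hb : q.2 with _ | _
      · have hq0 := hq'.2 hb
        by_cases hfull : fmax (μ a) K = K
        · have h1 := hrho a (fun z => q.1 * z ∈ A1 x K A) (by rw [hfull]; exact hq0)
          filter_upwards [h1] with s hs
          simp [hfull, hs]
        · have h1 := hrho a (fun z => q.1 * z ∈ A0 x K A) (A0_step hx hq0 hle)
          filter_upwards [h1] with s hs
          simp [hfull, hs]
      · have hq1 := hq'.1 hb
        have h1 := hrho a (fun z => q.1 * z ∈ A1 x K A) (A1_step hx hq1 hle)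
        filter_upwards [h1] with s hs
        simp [hs]
    have e2 : ∀ᶠ s in (x K : Filter (FIN ℕ)), s.ran = Set.Iic K := (hc.1 K le_rfl).2
    have e3 : ∀ᶠ s in (x K : Filter (FIN ℕ)), ∀ h ∈ {h : FIN ℕ | h ∈ H}, h.Below s := by
      rw [eventually_all_finite (List.finite_toSet H)]
      intro h _
      exact (hc.1 K le_rfl).1.below h
    obtain ⟨s, h1, h2, h3⟩ := (e1.and (e2.and e3)).exists
    refine ⟨s, fun _ => ⟨?_, h2, fun h hh => h3 h hh⟩⟩
    intro q hq
    simp only [prods, Set.mem_union, Set.mem_iUnion, Set.mem_image] at hq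
    rcases hq with hq | ⟨a, q', hq', rfl⟩
    · exact hH q hq
    · exact h1 q' hq' a
  choose g hg using step
  let f : ℕ → List (FIN ℕ) := fun n => Nat.rec [] (fun _ H => g H :: H) n
  have hf0 : f 0 = [] := rfl
  have hfs : ∀ n, f (n + 1) = g (f n) :: f n := fun n => rfl
  have hInv : ∀ n, Inv (f n) := by
    intro n
    induction n with
    | zero =>
      intro q hq
      rw [hf0] at hq
      simp only [prods, Set.mem_singleton_iff] at hq
      subst hq
      refine ⟨fun h => absurd h (by simp), fun _ => ?_⟩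
      exact empty_mem_A0 hx hA
    | succ n ih => rw [hfs]; exact (hg (f n) ih).1
  let s : ℕ → FIN ℕ := fun n => g (f n)
  have hmem : ∀ n i, i < n → s i ∈ f n := by
    intro n
    induction n with
    | zero => intro i hi; omega
    | succ n ih =>
      intro i hi
      rw [hfs]
      rcases Nat.eq_or_lt_of_le (Nat.le_of_lt_succ hi) with h | h
      · rw [h]; exact List.mem_cons_self
      · exact List.mem_cons_of_mem _ (ih i h)
  have hprod : ∀ n, ∀ L : List (ℕ × ι), L.Pairwise (fun a b => a.1 < b.1) →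
      (∀ q ∈ L, q.1 < n) →
      (prodL μ s L, decide (∃ q ∈ L, fmax (μ q.2) K = K)) ∈ prods μ K (f n) := by
    intro n
    induction n with
    | zero =>
      intro L _ hL
      have : L = [] := by
        rcases L with _ | ⟨q, L⟩
        · rfl
        · have := hL q (by simp); omega
      subst this
      simp [prodL, hf0, prods]
    | succ n ih =>
      intro L hp hL
      rw [hfs]
      simp only [prods, Set.mem_union, Set.mem_iUnion, Set.mem_image]
      rcases List.eq_nil_or_concat L with rfl | ⟨L', q, rfl⟩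
      · left
        exact ih [] hp (by simp)
      · rw [List.concat_eq_append] at *
        have hp' := List.pairwise_append.1 hp
        have hlt : ∀ q' ∈ L', q'.1 < q.1 := fun q' hq' => hp'.2.2 q' hq' q (by simp)
        have hqn : q.1 < n + 1 := hL q (by simp)
        rcases Nat.eq_or_lt_of_le (Nat.le_of_lt_succ hqn) with h | h
        · right
          refine ⟨q.2, (prodL μ s L', decide (∃ q ∈ L', fmax (μ q.2) K = K)),
            ih L' hp'.1 (fun q' hq' => by have := hlt q' hq'; omega), ?_⟩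
          ext1
          · simp only
            rw [prodL_append]
            have : s q.1 = g (f n) := by rw [h]
            rw [this]
          · simp only [List.mem_append, List.mem_singleton]
            by_cases h1 : ∃ q ∈ L', fmax (μ q.2) K = K
            · have h2 : ∃ q' , (q' ∈ L' ∨ q' = q) ∧ fmax (μ q'.2) K = K := by
                obtain ⟨q', h3, h4⟩ := h1
                exact ⟨q', Or.inl h3, h4⟩
              simp [h1, h2]
            · by_cases h3 : fmax (μ q.2) K = K
              · have h2 : ∃ q' , (q' ∈ L' ∨ q' = q) ∧ fmax (μ q'.2) K = K :=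
                  ⟨q, Or.inr rfl, h3⟩
                simp [h3, h2]
              · have h2 : ¬ ∃ q' , (q' ∈ L' ∨ q' = q) ∧ fmax (μ q'.2) K = K := by
                  rintro ⟨q', h4 | h4, h5⟩
                  · exact h1 ⟨q', h4, h5⟩
                  · rw [h4] at h5; exact h3 h5
                simp only [h1, h2, h3, decide_false, Bool.or_self]
        · left
          exact ih _ hp (fun q' hq' => by
            rcases List.mem_append.1 hq' with h1 | h1
            · have := hlt q' h1; omega
            · rw [List.mem_singleton] at h1; rw [h1]; exact h)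
  refine ⟨s, fun i j hij => ?_, fun n => (hg (f n) (hInv n)).2.1, ?_⟩
  · exact (hg (f j) (hInv j)).2.2 _ (hmem j i hij)
  · intro L hp hfull
    have hbound : ∃ n, ∀ q ∈ L, q.1 < n := by
      clear hp hfull
      induction L with
      | nil => exact ⟨0, by simp⟩
      | cons a L ih =>
        obtain ⟨n, hn⟩ := ih
        refine ⟨max n (a.1 + 1), ?_⟩
        intro q hq
        rcases List.mem_cons.1 hq with h | h
        · rw [h]; omega
        · have := hn q h; omega
    obtain ⟨n, hn⟩ := hbound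
    have h1 := hprod n L hp hn
    exact ((hInv n _ h1).1 (by simpa using hfull)).1

end Pool.Agent.FINk
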