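import Mathlib
import Pool.Agent.FINk.Extract

/-!
The characterisation of property (R).
-/

namespace Pool.Agent.FINk

open Filter Topology

/-! ### Necessity -/

lemma PropertyR.finite_colouring {M α : Type*} [Monoid M] [MulAction M α] {p : α}
    (h : PropertyR M α p) {T : Type*} [Finite T] (c : FIN α → T) :
    ∃ s : ℕ → FIN α, Basic s ∧ (∀ n, p ∈ (s n).ran) ∧
      ∃ χ : T, ∀ x ∈ Span M s, c x = χ := by
  cases nonempty_fintype T
  obtain ⟨s, h1, h2, χ, h3⟩ := h (Fintype.card T) (fun x => Fintype.equivFin T (c x))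
  refine ⟨s, h1, h2, (Fintype.equivFin T).symm χ, fun x hx => ?_⟩
  rw [← h3 x hx]
  simp

/-- The letter `a` appears before any occurrence of `b`. -/
def before {α : Type*} (s : FIN α) (a b : α) : Prop :=
  ∃ n, s.toFun n = some a ∧ ∀ n' ≤ n, s.toFun n' ≠ some b

theorem enum_of_propertyR (k : ℕ) (M : Type*) [Monoid M] [MulAction M (Fin k)] (p : Fin k)
    (hp : ∀ j : Fin k, ∃ m : M, m • p = j) (h : PropertyR M (Fin k) p) :
    ∃ e : Equiv.Perm (Fin k), ∀ (m : M) (i : Fin k), ∃ j : Fin k,
      (fun a => m • e a) '' Set.Iic i = e '' Set.Iic j := by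
  classical
  obtain ⟨s, hs, hps, χ, hχ⟩ := h.finite_colouring
    (fun x => (before x, fun a => a ∈ x.ran) : FIN (Fin k) →
      (Fin k → Fin k → Prop) × (Fin k → Prop))
  -- two kinds of elements of the span
  have hs0 : s 0 ∈ Span M s := by
    refine ⟨[(0, 1)], by simp, by simp, ?_⟩
    apply FIN.ext'
    intro n
    simp [prodList, FIN.act, FIN.empty]
  have hz : ∀ m : M, (FIN.act m (s 0)).mul (s 1) ∈ Span M s := by
    intro m
    refine ⟨[(0, m), (1, 1)], by simp, by simp, ?_⟩
    apply FIN.ext'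
    intro n
    simp [prodList, FIN.act, FIN.empty]
  have hbef : ∀ (m : M) (a b : Fin k), before (s 0) a b ↔
      before ((FIN.act m (s 0)).mul (s 1)) a b := by
    intro m a b
    have h1 := (hχ _ hs0).trans (hχ _ (hz m)).symm
    have h2 := congrFun (congrFun (congrArg Prod.fst h1) a) b
    simp only at h2
    rw [h2]
  have hran : ∀ (m : M) (a : Fin k), a ∈ (s 0).ran ↔
      a ∈ ((FIN.act m (s 0)).mul (s 1)).ran := by
    intro m a
    have h1 := (hχ _ hs0).trans (hχ _ (hz m)).symm
    have h2 := congrFun (congrArg Prod.snd h1) a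
    simp only at h2
    rw [h2]
  -- all letters occur
  have hall : ∀ a : Fin k, ∃ n, (s 0).toFun n = some a := by
    intro a
    obtain ⟨m, hm⟩ := hp a
    obtain ⟨n, hn⟩ := hps 0
    have h1 : a ∈ ((FIN.act m (s 0)).mul (s 1)).ran := by
      refine ⟨n, ?_⟩
      simp [FIN.mul, FIN.act, hn, hm]
    exact (hran m a).2 h1
  let pos : Fin k → ℕ := fun a => Nat.find (hall a)
  have hpos : ∀ a, (s 0).toFun (pos a) = some a := fun a => Nat.find_spec (hall a)
  have hposmin : ∀ a n, (s 0).toFun n = some a → pos a ≤ n := fun a n hn =>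
    Nat.find_min' (hall a) hn
  have hinj : Function.Injective pos := by
    intro a b hab
    have h1 := hpos a
    rw [hab, hpos b] at h1
    exact (Option.some.inj h1).symm
  let e : Equiv.Perm (Fin k) := Tuple.sort pos
  have hmono : Monotone (pos ∘ e) := Tuple.monotone_sort pos
  have hlt : ∀ a b, pos (e a) < pos (e b) → a < b := by
    intro a b hab
    by_contra hcon
    push Not at hcon
    have := hmono hcon
    simp only [Function.comp] at this
    omega
  have hlt' : ∀ a b, a < b → pos (e a) < pos (e b) := by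
    intro a b hab
    have h1 := hmono hab.le
    simp only [Function.comp] at h1
    rcases Nat.eq_or_lt_of_le h1 with h2 | h2
    · have := e.injective (hinj h2)
      rw [this] at hab
      exact absurd hab (lt_irrefl _)
    · exact h2
  refine ⟨e, fun m i => ?_⟩
  let S : Set (Fin k) := (fun a => m • e a) '' Set.Iic i
  let B : Finset (Fin k) := {b | e b ∈ S}
  have hBne : B.Nonempty := by
    refine ⟨e.symm (m • e i), ?_⟩
    simp only [B, Finset.mem_filter, Finset.mem_univ, true_and, Equiv.apply_symm_apply, S]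
    exact ⟨i, Set.mem_Iic.2 le_rfl, rfl⟩
  let j := B.max' hBne
  have hjS : e j ∈ S := by
    have := B.max'_mem hBne
    simpa only [B, Finset.mem_filter, Finset.mem_univ, true_and] using this
  refine ⟨j, Set.Subset.antisymm ?_ ?_⟩
  · intro y hy
    refine ⟨e.symm y, ?_, by simp⟩
    apply B.le_max'
    simp only [B, Finset.mem_filter, Finset.mem_univ, true_and, Equiv.apply_symm_apply]
    exact hy
  · rintro _ ⟨b, hb, rfl⟩
    rcases eq_or_lt_of_le (Set.mem_Iic.1 hb) with h1 | h1
    · rw [h1]; exact hjS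
    · have h2 : before (s 0) (e b) (e j) := by
        refine ⟨pos (e b), hpos _, fun n' hn' hcon => ?_⟩
        have h3 := hposmin _ _ hcon
        have h4 := hlt' b j h1
        omega
      rw [hbef m] at h2
      obtain ⟨n, hn1, hn2⟩ := h2
      obtain ⟨a, ha, haj⟩ := hjS
      simp only at haj
      have h5 : n < pos (e a) := by
        by_contra hcon
        push Not at hcon
        apply hn2 _ hcon
        simp [FIN.mul, FIN.act, hpos, haj]
      simp only [FIN.mul, FIN.act] at hn1
      rcases hx : (s 0).toFun n with _ | x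
      · rw [hx] at hn1
        simp only [Option.map_none, Option.none_or] at hn1
        have h6 := hs 0 1 (by omega) (pos (e a))
          (by show (s 0).toFun (pos (e a)) ≠ none; simp [hpos]) n
          (by show (s 1).toFun n ≠ none; simp [hn1])
        omega
      · rw [hx] at hn1
        simp only [Option.map_some, Option.some_or, Option.some.injEq] at hn1
        have h6 := hposmin x n hx
        have h7 : e.symm x < a := by
          apply hlt
          rw [Equiv.apply_symm_apply]
          omega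
        refine ⟨e.symm x, (h7.le.trans ha), ?_⟩
        simp only [Equiv.apply_symm_apply]
        exact hn1

/-! ### Sufficiency -/

/-- Extension of a self-map of `Fin (K + 1)` to `ℕ`. -/
def ext {K : ℕ} (σ : Fin (K + 1) → Fin (K + 1)) (i : ℕ) : ℕ :=
  if h : i < K + 1 then (σ ⟨i, h⟩ : ℕ) else 0

lemma ext_apply {K : ℕ} (σ : Fin (K + 1) → Fin (K + 1)) {i : ℕ} (h : i < K + 1) :
    ext σ i = σ ⟨i, h⟩ := by
  simp only [ext]
  rw [dif_pos h]

lemma rigid_ext {K : ℕ} (σ : Fin (K + 1) → Fin (K + 1))
    (hσ : ∀ i, ∃ j, σ '' Set.Iic i = Set.Iic j) : Rigid (ext σ) := by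
  refine ⟨?_, fun i => ?_⟩
  · rw [ext_apply σ (by omega)]
    obtain ⟨j, hj⟩ := hσ 0
    have h0 : (0 : Fin (K + 1)) ∈ σ '' Set.Iic 0 := by rw [hj]; exact Fin.zero_le j
    obtain ⟨a, ha, ha0⟩ := h0
    have : a = 0 := Fin.le_zero_iff.1 ha
    rw [this] at ha0
    have h1 : σ ⟨0, by omega⟩ = 0 := ha0
    rw [h1]
    rfl
  · by_cases hi : i + 1 < K + 1
    · by_contra hcon
      push Not at hcon
      rw [ext_apply σ hi] at hcon
      obtain ⟨j, hj⟩ := hσ ⟨i + 1, hi⟩
      have hmem : σ ⟨i + 1, hi⟩ ∈ Set.Iic j := by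
        rw [← hj]; exact ⟨⟨i + 1, hi⟩, Set.mem_Iic.2 le_rfl, rfl⟩
      have hv : fmax (ext σ) i + 1 < K + 1 := by
        have := (σ ⟨i + 1, hi⟩).2
        omega
      have hmem2 : (⟨fmax (ext σ) i + 1, hv⟩ : Fin (K + 1)) ∈ Set.Iic j := by
        rw [Set.mem_Iic, Fin.le_def] at hmem ⊢
        simp only
        omega
      rw [← hj] at hmem2
      obtain ⟨a, ha, hav⟩ := hmem2
      rw [Set.mem_Iic, Fin.le_def] at ha
      simp only at ha
      have hav' : (σ a : ℕ) = fmax (ext σ) i + 1 := by rw [hav]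
      rcases Nat.lt_or_ge (a : ℕ) (i + 1) with h1 | h1
      · have h2 := le_fmax (ext σ) a i (by omega)
        rw [ext_apply σ a.2] at h2
        simp only [Fin.eta] at h2
        omega
      · have h2 : a = ⟨i + 1, hi⟩ := by
          apply Fin.ext
          simp only
          omega
        rw [h2] at hav'
        omega
    · have : ext σ (i + 1) = 0 := by
        simp only [ext]
        rw [dif_neg hi]
      omega

theorem propertyR_of_enum (k : ℕ) (M : Type*) [Monoid M] [MulAction M (Fin k)] (p : Fin k)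
    (hp : ∀ j : Fin k, ∃ m : M, m • p = j) (e : Equiv.Perm (Fin k))
    (he : ∀ (m : M) (i : Fin k), ∃ j : Fin k,
      (fun a => m • e a) '' Set.Iic i = e '' Set.Iic j) : PropertyR M (Fin k) p := by
  classical
  obtain ⟨K, rfl⟩ : ∃ K, k = K + 1 := ⟨k - 1, by have := p.2; omega⟩
  let σ : M → Fin (K + 1) → Fin (K + 1) := fun m a => e.symm (m • e a)
  have hσ : ∀ m i, ∃ j, σ m '' Set.Iic i = Set.Iic j := by
    intro m i
    obtain ⟨j, hj⟩ := he m i
    refine ⟨j, ?_⟩
    have h1 : σ m '' Set.Iic i = e.symm '' ((fun a => m • e a) '' Set.Iic i) := by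
      rw [← Set.image_comp]
      rfl
    rw [h1, hj, ← Set.image_comp]
    simp
  have hrig : ∀ m, Rigid (ext (σ m)) := fun m => rigid_ext (σ m) (hσ m)
  have hσ1 : ∀ a, σ 1 a = a := fun a => by simp [σ]
  -- the distinguished point is the last one
  have hpK : p = e ⟨K, by omega⟩ := by
    obtain ⟨m, hm⟩ := hp (e ⟨K, by omega⟩)
    have h1 : σ m (e.symm p) = ⟨K, by omega⟩ := by simp [σ, hm]
    have h2 := ((hrig m).rg K).le (e.symm p) (e.symm p).2
    rw [ext_apply (σ m) (e.symm p).2] at h2
    simp only [Fin.eta, h1] at h2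
    have h3 : e.symm p = ⟨K, by omega⟩ := by
      apply Fin.ext
      have := (e.symm p).2
      simp only
      omega
    rw [← h3]
    simp
  intro r c
  obtain ⟨x, hc, hx⟩ := exists_ultra_chain K
  -- the maps
  let ι := {τ : Fin (K + 1) → Fin (K + 1) // Rigid (ext τ)}
  let dec : ℕ → Fin (K + 1) := fun i => e ⟨min i K, by omega⟩
  obtain ⟨χ, hχ⟩ := Ultrafilter.eq_pure_of_finite
    ((x K).map (fun g => c (g.map dec)))
  have hA : ∀ᶠ g in (x K : Filter (FIN ℕ)), g ∈ {g : FIN ℕ | c (g.map dec) = χ} := by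
    have h1 : ∀ᶠ y in (((x K).map (fun g => c (g.map dec)) : Ultrafilter (Fin r)) :
        Filter (Fin r)), y = χ := by
      rw [hχ]
      simp
    exact h1
  obtain ⟨s, hs1, hs2, hs3⟩ := exists_sequence (ι := ι) (fun τ => ext τ.1) (fun τ => τ.2) K x
    hc hx {g : FIN ℕ | c (g.map dec) = χ} hA
  -- the action
  have hact : ∀ (m : M) (n : ℕ), FIN.act m ((s n).map dec) =
      ((s n).map (ext (σ m))).map dec := by
    intro m n
    apply FIN.ext'
    intro i
    simp only [FIN.act, FIN.map_toFun]
    rcases hi : (s n).toFun i with _ | a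
    · simp
    · have ha : a ∈ (s n).ran := ⟨i, hi⟩
      rw [hs2 n, Set.mem_Iic] at ha
      simp only [Option.map_some, Option.some.injEq, dec]
      have h1 : a < K + 1 := by omega
      rw [ext_apply (σ m) h1]
      have h2 : (⟨min a K, by omega⟩ : Fin (K + 1)) = ⟨a, h1⟩ := by
        apply Fin.ext
        simp only
        omega
      rw [h2]
      have h3 : (⟨min ((σ m ⟨a, h1⟩ : Fin (K + 1)) : ℕ) K, by omega⟩ : Fin (K + 1)) =
          σ m ⟨a, h1⟩ := by
        apply Fin.ext
        simp only
        have := (σ m ⟨a, h1⟩).2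
        omega
      rw [h3]
      simp [σ]
  refine ⟨fun n => (s n).map dec, ?_, ?_, χ, ?_⟩
  · intro i j hij a ha b hb
    refine hs1 i j hij a ?_ b ?_
    · intro h
      exact ha (by simp [h])
    · intro h
      exact hb (by simp [h])
  · intro n
    rw [FIN.ran_map, hs2 n, hpK]
    refine ⟨K, Set.mem_Iic.2 le_rfl, ?_⟩
    simp [dec]
  · rintro _ ⟨L, hL1, ⟨q, hq, hq1⟩, rfl⟩
    let L' : List (ℕ × ι) := L.map (fun q => (q.1, ⟨σ q.2, hrig q.2⟩))
    have hprod : ∀ L : List (ℕ × M), prodList (fun n => (s n).map dec) L =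
        (prodL (fun τ : ι => ext τ.1) s
          (L.map (fun q => (q.1, (⟨σ q.2, hrig q.2⟩ : ι))))).map dec := by
      intro L
      induction L with
      | nil =>
        apply FIN.ext'
        intro n
        simp [prodList, prodL, FIN.empty]
      | cons a L ih =>
        simp only [prodList, List.map_cons, prodL]
        rw [FIN.map_mul, ih, hact]
        rfl
    rw [hprod]
    refine hs3 _ ?_ ?_
    · rw [List.pairwise_map]
      exact hL1
    · refine ⟨(q.1, ⟨σ q.2, hrig q.2⟩), List.mem_map.2 ⟨q, hq, rfl⟩, ?_⟩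
      simp only
      rw [hq1]
      apply le_antisymm ((hrig 1).fmax_le K)
      have h1 := le_fmax (ext (σ 1)) K K le_rfl
      rw [ext_apply (σ 1) (by omega), hσ1] at h1
      exact h1

end Pool.Agent.FINk
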